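import Mathlib

/-!
# Approximation of small monotone real circuits by maxima of functions of one item

The input is a family of items `z (s, i)`, with `s : Bool` the side and `i : Fin N`, each item is an
element of a partial order `V` with a least element. Positive inputs have only one item on each side
that is not `⊥`, negative inputs consist of independent random items.
-/

set_option autoImplicit false

open Finset

namespace Pool.Agent.V8H43.OV

open scoped Classical in
/-- The number of the elements with a property. -/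
noncomputable def cnt {α : Type} [Fintype α] (p : α → Prop) : ℕ := (univ.filter p).card

theorem cnt_eq {α : Type} [Fintype α] (p : α → Prop) [DecidablePred p] :
    cnt p = (univ.filter p).card := by
  unfold cnt
  congr!

theorem cnt_eq_zero {α : Type} [Fintype α] {p : α → Prop} (h : ∀ x, ¬ p x) : cnt p = 0 := by
  classical
  rw [cnt_eq, Finset.card_eq_zero, Finset.filter_eq_empty_iff]
  exact fun x _ => h x

theorem cnt_le_of {α : Type} [Fintype α] {p q : α → Prop} (h : ∀ x, p x → q x) :
    cnt p ≤ cnt q := by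
  classical
  unfold cnt
  exact Finset.card_le_card fun x hx => by
    simp only [mem_filter, mem_univ, true_and] at hx ⊢
    exact h x hx

theorem cnt_le {α : Type} [Fintype α] (p : α → Prop) : cnt p ≤ Fintype.card α := by
  classical
  unfold cnt
  exact Finset.card_le_univ _

section defs

variable {κ V : Type} [PartialOrder V] [OrderBot V]

/-- The functions of one item (and the constants). -/
def Leaf (κ V : Type) [PartialOrder V] : Set ((κ → V) → ℝ) :=
  {f | (∃ c : ℝ, f = fun _ => c) ∨ ∃ (i : κ) (u : V → ℝ), Monotone u ∧ f = fun z => u (z i)}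

/-- The sets of functions which are computed by the circuits with `s` binary gates (arbitrary
nondecreasing real functions of two arguments) and `m` maximum gates of arbitrary fan-in. -/
inductive Circ {X : Type} (L : Set (X → ℝ)) : ℕ → ℕ → Set (X → ℝ) → Prop
  | zero : Circ L 0 0 L
  | gate {s m : ℕ} {S : Set (X → ℝ)} {f g : X → ℝ} (φ : ℝ → ℝ → ℝ)
      (hφ : ∀ a a' b b', a ≤ a' → b ≤ b' → φ a b ≤ φ a' b') (hS : Circ L s m S)
      (hf : f ∈ S) (hg : g ∈ S) : Circ L (s + 1) m (insert (fun z => φ (f z) (g z)) S)
  | sup {s m : ℕ} {S : Set (X → ℝ)} (k : ℕ) (f : Fin (k + 1) → X → ℝ)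
      (hS : Circ L s m S) (hf : ∀ t, f t ∈ S) : Circ L s (m + 1) (insert (fun z => ⨆ t, f t z) S)

theorem Circ.comp {X X' : Type} {L : Set (X → ℝ)} {L' : Set (X' → ℝ)} (G : X' → X)
    (hG : ∀ f ∈ L, (fun z => f (G z)) ∈ L') {s m : ℕ} {S : Set (X → ℝ)} (h : Circ L s m S) :
    ∃ S', Circ L' s m S' ∧ ∀ f ∈ S, (fun z => f (G z)) ∈ S' := by
  induction h with
  | zero => exact ⟨L', Circ.zero, hG⟩
  | gate φ hφ hS hf hg ih =>
    obtain ⟨S', h1, h2⟩ := ih
    refine ⟨_, Circ.gate φ hφ h1 (h2 _ hf) (h2 _ hg), ?_⟩
    rintro h (rfl | hh)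
    · exact Set.mem_insert _ _
    · exact Set.mem_insert_of_mem _ (h2 _ hh)
  | sup k f hS hf ih =>
    obtain ⟨S', h1, h2⟩ := ih
    refine ⟨_, Circ.sup k (fun t z => f t (G z)) h1 fun t => h2 _ (hf t), ?_⟩
    rintro h (rfl | hh)
    · exact Set.mem_insert _ _
    · exact Set.mem_insert_of_mem _ (h2 _ hh)

theorem Circ.mono {X : Type} [Preorder X] {L : Set (X → ℝ)} (hL : ∀ f ∈ L, Monotone f)
    {s m : ℕ} {S : Set (X → ℝ)} (h : Circ L s m S) : ∀ f ∈ S, Monotone f := by
  induction h with
  | zero => exact hL
  | gate φ hφ hS hf hg ih =>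
    rintro h (rfl | hh)
    · exact fun x y hxy => hφ _ _ _ _ (ih _ hf hxy) (ih _ hg hxy)
    · exact ih _ hh
  | sup k f hS hf ih =>
    rintro h (rfl | hh)
    · exact fun x y hxy => ciSup_mono (Set.finite_range _).bddAbove fun t => ih _ (hf t) hxy
    · exact ih _ hh

omit [OrderBot V] in
theorem leaf_mono : ∀ f ∈ Leaf κ V, Monotone f := by
  rintro f (⟨c, rfl⟩ | ⟨i, u, hu, rfl⟩)
  · exact fun _ _ _ => le_rfl
  · exact fun x y hxy => hu (hxy i)

/-- The approximating functions: maxima of functions of one item. -/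
structure Apx (κ V : Type) [PartialOrder V] [OrderBot V] where
  c : ℝ
  u : κ → V → ℝ
  mono : ∀ i, Monotone (u i)
  bot : ∀ i, u i ⊥ = c

/-- The value. -/
noncomputable def Apx.val (A : Apx κ V) (z : κ → V) : ℝ := ⨆ i, A.u i (z i)

/-- The items which do not matter. -/
def Apx.Triv (A : Apx κ V) (i : κ) : Prop := ∀ v, A.u i v = A.c

theorem Apx.c_le (A : Apx κ V) (i : κ) (v : V) : A.c ≤ A.u i v := by
  rw [← A.bot i]
  exact A.mono i bot_le

theorem Apx.le_val [Finite κ] (A : Apx κ V) (z : κ → V) (i : κ) : A.u i (z i) ≤ A.val z :=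
  le_ciSup (f := fun i => A.u i (z i)) (Set.finite_range _).bddAbove i

theorem Apx.val_le [Nonempty κ] {A : Apx κ V} {z : κ → V} {t : ℝ} (h : ∀ i, A.u i (z i) ≤ t) :
    A.val z ≤ t := ciSup_le h

theorem Apx.exists_val [Finite κ] [Nonempty κ] (A : Apx κ V) (z : κ → V) :
    ∃ i, A.val z = A.u i (z i) := by
  obtain ⟨i, hi⟩ := exists_eq_ciSup_of_finite (f := fun i => A.u i (z i))
  exact ⟨i, hi.symm⟩

theorem Apx.c_le_val [Finite κ] [Nonempty κ] (A : Apx κ V) (z : κ → V) : A.c ≤ A.val z := by
  obtain ⟨i⟩ := ‹Nonempty κ›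
  exact (A.c_le i _).trans (A.le_val z i)

end defs

section trim

variable {κ V R : Type} [PartialOrder V] [OrderBot V] [Fintype κ] [DecidableEq κ] [Fintype R] [Nonempty κ]
  [Nonempty R]

/-- The trimming step. -/
theorem trim (ρ : R → V) (A : Apx κ V) {τ lam : ℝ} (hτ : 0 < τ) (hlam : 0 < lam) :
    ∃ (A' : Apx κ V) (T : κ → Prop), (cnt (fun i => ¬ A'.Triv i) : ℝ) ≤ τ / lam ∧
      A.c ≤ A'.c ∧
      (∀ i, ¬ T i → ∀ v, A.u i v ≤ A'.u i v) ∧
      (∀ i, T i → (cnt (fun r => A'.c < A.u i (ρ r)) : ℝ) < lam * Fintype.card R) ∧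
      (∀ i v, A'.u i v ≤ max A'.c (A.u i v)) ∧
      (cnt (fun r : κ → R => ∀ i, A.u i (ρ (r i)) < A'.c) : ℝ) ≤
        Real.exp (-τ) * Fintype.card (κ → R) := by
  classical
  set n : ℝ := (Fintype.card R : ℝ) with hn
  have hn0 : 0 < n := by
    rw [hn]
    exact_mod_cast Fintype.card_pos
  let S : ℝ → ℕ := fun θ => ∑ i, cnt (fun r => θ ≤ A.u i (ρ r))
  let vals : Finset ℝ := univ.image fun p : κ × R => A.u p.1 (ρ p.2)
  let good : Finset ℝ := insert A.c (vals.filter fun θ => τ * n ≤ S θ)
  have hne : good.Nonempty := ⟨A.c, mem_insert_self _ _⟩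
  set c' : ℝ := good.max' hne with hc'
  have hcc' : A.c ≤ c' := good.le_max' _ (mem_insert_self _ _)
  -- few items exceed the new constant
  have hsum : ((∑ i, cnt (fun r => c' < A.u i (ρ r)) : ℕ) : ℝ) < τ * n := by
    by_cases hex : ∃ θ ∈ vals, c' < θ
    · let up : Finset ℝ := vals.filter fun θ => c' < θ
      have hup : up.Nonempty := by
        obtain ⟨θ, h1, h2⟩ := hex
        exact ⟨θ, mem_filter.2 ⟨h1, h2⟩⟩
      set θ' := up.min' hup with hθ'
      have hmem : θ' ∈ up := up.min'_mem hup
      rw [mem_filter] at hmem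
      have hS : (S θ' : ℝ) < τ * n := by
        by_contra hcon
        push Not at hcon
        have : θ' ∈ good := mem_insert_of_mem (mem_filter.2 ⟨hmem.1, hcon⟩)
        exact absurd (good.le_max' _ this) (not_le.2 hmem.2)
      refine lt_of_le_of_lt ?_ hS
      norm_cast
      refine Finset.sum_le_sum fun i _ => cnt_le_of fun r hr => ?_
      exact up.min'_le _ (mem_filter.2 ⟨mem_image.2 ⟨(i, r), mem_univ _, rfl⟩, hr⟩)
    · push Not at hex
      have : (∑ i, cnt (fun r => c' < A.u i (ρ r)) : ℕ) = 0 := by
        refine Finset.sum_eq_zero fun i _ => ?_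
        refine cnt_eq_zero fun r hr => ?_
        exact absurd (hex _ (mem_image.2 ⟨(i, r), mem_univ _, rfl⟩)) (not_le.2 hr)
      rw [this]
      simp only [Nat.cast_zero]
      positivity
  let T : κ → Prop := fun i => (cnt (fun r => c' < A.u i (ρ r)) : ℝ) < lam * n
  let u' : κ → V → ℝ := fun i v => if T i then c' else max c' (A.u i v)
  refine ⟨⟨c', u', ?_, ?_⟩, T, ?_, hcc', ?_, ?_, ?_, ?_⟩
  · intro i v w hvw
    show (if T i then c' else max c' (A.u i v)) ≤ if T i then c' else max c' (A.u i w)
    split_ifs
    · exact le_rfl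
    · exact max_le_max le_rfl (A.mono i hvw)
  · intro i
    show (if T i then c' else max c' (A.u i ⊥)) = c'
    split_ifs
    · rfl
    · rw [A.bot, max_eq_left hcc']
  · -- the number of the items that matter
    have h1 : (cnt (fun i => ¬ Apx.Triv ⟨c', u', by
        intro i v w hvw
        show (if T i then c' else max c' (A.u i v)) ≤ if T i then c' else max c' (A.u i w)
        split_ifs
        · exact le_rfl
        · exact max_le_max le_rfl (A.mono i hvw), by
        intro i
        show (if T i then c' else max c' (A.u i ⊥)) = c'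
        split_ifs
        · rfl
        · rw [A.bot, max_eq_left hcc']⟩ i) : ℝ) * (lam * n) ≤
        ((∑ i, cnt (fun r => c' < A.u i (ρ r)) : ℕ) : ℝ) := by
      push_cast
      unfold cnt
      rw [← nsmul_eq_mul, ← Finset.sum_const]
      refine (Finset.sum_le_sum (g := fun i => ((univ.filter fun r => c' < A.u i (ρ r)).card : ℝ))
        ?_).trans (Finset.sum_le_sum_of_subset_of_nonneg (Finset.subset_univ _)
          fun _ _ _ => by positivity)
      intro i hi
      simp only [mem_filter, mem_univ, true_and] at hi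
      have hT : ¬ T i := by
        intro hT
        apply hi
        intro v
        show (if T i then c' else max c' (A.u i v)) = c'
        rw [if_pos hT]
      exact not_lt.1 hT
    rw [le_div_iff₀ hlam]
    have h2 := h1.trans hsum.le
    rw [← mul_assoc] at h2
    exact le_of_mul_le_mul_right h2 hn0
  · intro i hi v
    show A.u i v ≤ if T i then c' else max c' (A.u i v)
    rw [if_neg hi]
    exact le_max_right _ _
  · intro i hi
    exact hi
  · intro i v
    show (if T i then c' else max c' (A.u i v)) ≤ max c' (A.u i v)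
    split_ifs
    · exact le_max_left _ _
    · exact le_rfl
  · show (cnt (fun r : κ → R => ∀ i, A.u i (ρ (r i)) < c') : ℝ) ≤
      Real.exp (-τ) * Fintype.card (κ → R)
    have hmem := good.max'_mem hne
    rw [← hc', mem_insert] at hmem
    rcases hmem with h | h
    · -- nothing changed
      have : cnt (fun r : κ → R => ∀ i, A.u i (ρ (r i)) < c') = 0 := by
        refine cnt_eq_zero fun r hr => ?_
        obtain ⟨i⟩ := ‹Nonempty κ›
        have h1 := hr i
        rw [h] at h1
        exact absurd (A.c_le i _) (not_le.2 h1)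
      rw [this]
      simp only [Nat.cast_zero]
      positivity
    · rw [mem_filter] at h
      have hcard : cnt (fun r : κ → R => ∀ i, A.u i (ρ (r i)) < c') =
          ∏ i, cnt (fun r => A.u i (ρ r) < c') := by
        have h1 : (univ.filter fun r : κ → R => ∀ i, A.u i (ρ (r i)) < c') =
            Fintype.piFinset fun i => univ.filter fun r => A.u i (ρ r) < c' := by
          ext r
          simp [Fintype.mem_piFinset]
        rw [cnt_eq (fun r : κ → R => ∀ i, A.u i (ρ (r i)) < c'), h1, Fintype.card_piFinset]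
        exact Finset.prod_congr rfl fun i _ => (cnt_eq _).symm
      have hcompl : ∀ i, (cnt (fun r => A.u i (ρ r) < c') : ℝ) =
          n - cnt (fun r => c' ≤ A.u i (ρ r)) := by
        intro i
        have h1 := Finset.card_filter_add_card_filter_not (s := (univ : Finset R))
          (fun r => c' ≤ A.u i (ρ r))
        have h2 : cnt (fun r => A.u i (ρ r) < c') =
            (univ.filter fun r => ¬ c' ≤ A.u i (ρ r)).card := by
          unfold cnt
          simp only [not_le]
        rw [h2, eq_sub_iff_add_eq, hn, ← Finset.card_univ, ← h1]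
        unfold cnt
        push_cast
        ring
      rw [hcard]
      push_cast
      have hle : ∀ i, (cnt (fun r => A.u i (ρ r) < c') : ℝ) ≤
          n * Real.exp (-((cnt (fun r => c' ≤ A.u i (ρ r)) : ℝ) / n)) := by
        intro i
        rw [hcompl i]
        have h1 := Real.add_one_le_exp (-((cnt (fun r => c' ≤ A.u i (ρ r)) : ℝ) / n))
        have h2 := mul_le_mul_of_nonneg_left h1 hn0.le
        refine le_trans (le_of_eq ?_) h2
        field_simp
        ring
      refine (Finset.prod_le_prod (fun i _ => by positivity) fun i _ => hle i).trans ?_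
      rw [Finset.prod_mul_distrib, Finset.prod_const, ← Real.exp_sum, Fintype.card_fun]
      push_cast
      rw [mul_comm]
      refine mul_le_mul_of_nonneg_right (Real.exp_le_exp.2 ?_) (by positivity)
      rw [Finset.sum_neg_distrib, neg_le_neg_iff, ← Finset.sum_div, le_div_iff₀ hn0]
      have h3 := h.2
      simp only [S] at h3
      push_cast at h3
      exact h3

end trim

end Pool.Agent.V8H43.OV
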