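import Mathlib
import Pool.Agent.V8H43.OV.Core

/-!
# Small circuits are approximated
-/

set_option autoImplicit false

open Finset

namespace Pool.Agent.V8H43.OV

section counting

variable {α β : Type} [Fintype α] [Fintype β]

theorem cnt_or_le (p q : α → Prop) : cnt (fun x => p x ∨ q x) ≤ cnt p + cnt q := by
  classical
  rw [cnt_eq, cnt_eq, cnt_eq, Finset.filter_or]
  exact Finset.card_union_le _ _

theorem cnt_not (p : α → Prop) : (cnt (fun x => ¬ p x) : ℝ) = Fintype.card α - cnt p := by
  classical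
  have h1 := Finset.card_filter_add_card_filter_not (s := (univ : Finset α)) p
  rw [cnt_eq, cnt_eq, eq_sub_iff_add_eq, ← Finset.card_univ, ← h1]
  push_cast
  ring

theorem cnt_prod (p : α → Prop) (q : β → Prop) :
    cnt (fun x : α × β => p x.1 ∧ q x.2) = cnt p * cnt q := by
  classical
  rw [cnt_eq, cnt_eq, cnt_eq, ← Finset.card_product]
  congr 1
  ext x
  simp

theorem cnt_true : cnt (fun _ : α => True) = Fintype.card α := by
  classical
  rw [cnt_eq]
  simp

theorem cnt_snd (q : β → Prop) : cnt (fun x : α × β => q x.2) = Fintype.card α * cnt q := by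
  rw [← cnt_true (α := α), ← cnt_prod]
  simp

theorem cnt_fst (p : α → Prop) : cnt (fun x : α × β => p x.1) = cnt p * Fintype.card β := by
  rw [← cnt_true (α := β), ← cnt_prod]
  simp

theorem cnt_equiv (e : α ≃ β) (q : β → Prop) : cnt (fun x => q (e x)) = cnt q := by
  classical
  rw [cnt_eq, cnt_eq]
  refine Finset.card_bij (fun x _ => e x) ?_ ?_ ?_
  · intro x hx
    simpa using hx
  · intro x _ y _ h
    exact e.injective h
  · intro y hy
    exact ⟨e.symm y, by simpa using hy, by simp⟩

theorem cnt_bool (q : Bool × α → Prop) :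
    cnt q = cnt (fun x => q (false, x)) + cnt (fun x => q (true, x)) := by
  classical
  simp only [cnt_eq, Finset.card_filter]
  rw [Fintype.sum_prod_type, Fintype.sum_bool, add_comm]

end counting

section approx

variable {V R W : Type} [PartialOrder V] [OrderBot V] [Fintype R] [Fintype W] [Nonempty R]
  [Nonempty W] {N : ℕ} [NeZero N]

/-- The input with one item on each side. -/
def posIn (ξ υ : W → V) (p : Fin N × Fin N × W) : Bool × Fin N → V := fun s =>
  if s = (false, p.1) then ξ p.2.2 else if s = (true, p.2.1) then υ p.2.2 else ⊥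

/-- The comparison of the distributions of the items. -/
def Dom (ρ : R → V) (ξ : W → V) (lam eta : ℝ) : Prop :=
  ∀ u : V → ℝ, Monotone u → ∀ θ : ℝ,
    (cnt (fun r => θ < u (ρ r)) : ℝ) < lam * Fintype.card R →
      (cnt (fun w => θ < u (ξ w)) : ℝ) ≤ eta * Fintype.card W

variable {ρ : R → V} {ξ υ : W → V} {lam eta τ K : ℝ}

/-- The error of trimming, on positive inputs. -/
def E2 (ξ υ : W → V) (A A' : Apx (Bool × Fin N) V) (T : Bool × Fin N → Prop)
    (p : Fin N × Fin N × W) : Prop :=
  (T (false, p.1) ∧ A'.c < A.u (false, p.1) (ξ p.2.2)) ∨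
    (T (true, p.2.1) ∧ A'.c < A.u (true, p.2.1) (υ p.2.2))

omit [Fintype W] [Nonempty W] in
theorem le_val_of_not_E2 {A A' : Apx (Bool × Fin N) V} {T : Bool × Fin N → Prop}
    (hc : A.c ≤ A'.c) (hT : ∀ i, ¬ T i → ∀ v, A.u i v ≤ A'.u i v)
    {p : Fin N × Fin N × W} (hp : ¬ E2 ξ υ A A' T p) (i : Bool × Fin N) :
    A.u i (posIn ξ υ p i) ≤ A'.val (posIn ξ υ p) := by
  by_cases h : T i
  · refine le_trans ?_ (A'.c_le_val (posIn ξ υ p))
    unfold posIn
    split_ifs with h1 h2
    · subst h1
      by_contra hcon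
      exact hp (Or.inl ⟨h, not_le.1 hcon⟩)
    · subst h2
      by_contra hcon
      exact hp (Or.inr ⟨h, not_le.1 hcon⟩)
    · rw [A.bot]
      exact hc
  · exact (hT i h _).trans (A'.le_val _ i)

omit [Nonempty R] [NeZero N] in
theorem E2_cnt (hξ : Dom ρ ξ lam eta) (hυ : Dom ρ υ lam eta)
    {A A' : Apx (Bool × Fin N) V} {T : Bool × Fin N → Prop}
    (hT : ∀ i, T i → (cnt (fun r => A'.c < A.u i (ρ r)) : ℝ) < lam * Fintype.card R)
    (heta : 0 ≤ eta) :
    (cnt (E2 ξ υ A A' T) : ℝ) ≤ 2 * eta * ((N : ℝ) ^ 2 * Fintype.card W) := by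
  classical
  have h1 : (cnt (fun p : Fin N × Fin N × W =>
      T (false, p.1) ∧ A'.c < A.u (false, p.1) (ξ p.2.2)) : ℝ) ≤
      eta * ((N : ℝ) ^ 2 * Fintype.card W) := by
    have h2 : cnt (fun p : Fin N × Fin N × W =>
        T (false, p.1) ∧ A'.c < A.u (false, p.1) (ξ p.2.2)) =
        ∑ i : Fin N, cnt (fun q : Fin N × W => T (false, i) ∧ A'.c < A.u (false, i) (ξ q.2)) := by
      simp only [cnt_eq, Finset.card_filter]
      rw [Fintype.sum_prod_type]
    rw [h2]
    push_cast
    have h3 : ∀ i : Fin N, (cnt (fun q : Fin N × W =>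
        T (false, i) ∧ A'.c < A.u (false, i) (ξ q.2)) : ℝ) ≤ eta * (N * Fintype.card W) := by
      intro i
      by_cases h : T (false, i)
      · have h4 := hξ (A.u (false, i)) (A.mono _) A'.c (hT _ h)
        have h5 : cnt (fun q : Fin N × W => T (false, i) ∧ A'.c < A.u (false, i) (ξ q.2)) =
            N * cnt (fun w => A'.c < A.u (false, i) (ξ w)) := by
          have := cnt_snd (α := Fin N) (fun w => A'.c < A.u (false, i) (ξ w))
          rw [Fintype.card_fin] at this
          rw [← this]
          congr 1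
          funext q
          simp [h]
        rw [h5]
        push_cast
        have h6 := mul_le_mul_of_nonneg_left h4 (Nat.cast_nonneg (α := ℝ) N)
        calc (N : ℝ) * (cnt (fun w => A'.c < A.u (false, i) (ξ w)) : ℝ) ≤
            N * (eta * Fintype.card W) := h6
          _ = _ := by ring
      · rw [cnt_eq_zero fun q hq => h hq.1]
        simp only [Nat.cast_zero]
        positivity
    refine (Finset.sum_le_sum fun i _ => h3 i).trans (le_of_eq ?_)
    rw [Finset.sum_const, Finset.card_univ, Fintype.card_fin, nsmul_eq_mul]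
    ring
  have h1' : (cnt (fun p : Fin N × Fin N × W =>
      T (true, p.2.1) ∧ A'.c < A.u (true, p.2.1) (υ p.2.2)) : ℝ) ≤
      eta * ((N : ℝ) ^ 2 * Fintype.card W) := by
    have h2 : cnt (fun p : Fin N × Fin N × W =>
        T (true, p.2.1) ∧ A'.c < A.u (true, p.2.1) (υ p.2.2)) =
        N * ∑ j : Fin N, cnt (fun w : W => T (true, j) ∧ A'.c < A.u (true, j) (υ w)) := by
      have := cnt_snd (α := Fin N) (fun q : Fin N × W =>
        T (true, q.1) ∧ A'.c < A.u (true, q.1) (υ q.2))
      rw [Fintype.card_fin] at this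
      rw [this]
      congr 1
      simp only [cnt_eq, Finset.card_filter]
      rw [Fintype.sum_prod_type]
    rw [h2]
    push_cast
    have h3 : ∀ j : Fin N, (cnt (fun w : W =>
        T (true, j) ∧ A'.c < A.u (true, j) (υ w)) : ℝ) ≤ eta * Fintype.card W := by
      intro j
      by_cases h : T (true, j)
      · have h4 := hυ (A.u (true, j)) (A.mono _) A'.c (hT _ h)
        simpa [h] using h4
      · rw [cnt_eq_zero fun q hq => h hq.1]
        simp only [Nat.cast_zero]
        positivity
    have h4 := Finset.sum_le_sum (s := univ) fun j _ => h3 j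
    rw [Finset.sum_const, Finset.card_univ, Fintype.card_fin, nsmul_eq_mul] at h4
    have h5 := mul_le_mul_of_nonneg_left h4 (Nat.cast_nonneg (α := ℝ) N)
    refine h5.trans (le_of_eq ?_)
    ring
  have h7 := cnt_or_le (fun p : Fin N × Fin N × W =>
      T (false, p.1) ∧ A'.c < A.u (false, p.1) (ξ p.2.2)) (fun p : Fin N × Fin N × W =>
      T (true, p.2.1) ∧ A'.c < A.u (true, p.2.1) (υ p.2.2))
  have h8 : (cnt (E2 ξ υ A A' T) : ℝ) ≤ _ := Nat.cast_le.2 h7
  push_cast at h8
  linarith

/-- The error of a binary gate, on positive inputs. -/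
def E1 (W : Type) (A B : Apx (Bool × Fin N) V) (p : Fin N × Fin N × W) : Prop :=
  ¬ (A.Triv (false, p.1) ∧ B.Triv (false, p.1)) ∧
    ¬ (A.Triv (true, p.2.1) ∧ B.Triv (true, p.2.1))

omit [Nonempty W] [NeZero N] in
theorem E1_cnt {A B : Apx (Bool × Fin N) V} (hA : (cnt (fun i => ¬ A.Triv i) : ℝ) ≤ K)
    (hB : (cnt (fun i => ¬ B.Triv i) : ℝ) ≤ K) :
    (cnt (E1 W A B) : ℝ) ≤ K ^ 2 * Fintype.card W := by
  classical
  have h1 : cnt (E1 W A B) = cnt (fun i => ¬ (A.Triv (false, i) ∧ B.Triv (false, i))) *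
      (cnt (fun j => ¬ (A.Triv (true, j) ∧ B.Triv (true, j))) * Fintype.card W) := by
    rw [← cnt_fst, ← cnt_prod]
    rfl
  have h2 : ∀ b : Bool, cnt (fun i : Fin N => ¬ (A.Triv (b, i) ∧ B.Triv (b, i))) ≤
      cnt (fun i : Fin N => ¬ A.Triv (b, i)) + cnt (fun i : Fin N => ¬ B.Triv (b, i)) := by
    intro b
    refine le_trans (cnt_le_of fun i hi => ?_) (cnt_or_le _ _)
    exact not_and_or.1 hi
  have h3 := h2 false
  have h4 := h2 true
  rw [cnt_bool] at hA hB
  push_cast at hA hB
  rw [h1]
  push_cast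
  rw [← mul_assoc]
  refine mul_le_mul_of_nonneg_right ?_ (Nat.cast_nonneg _)
  have h5 : (cnt (fun i : Fin N => ¬ (A.Triv (false, i) ∧ B.Triv (false, i))) : ℝ) ≤
      cnt (fun i : Fin N => ¬ A.Triv (false, i)) + cnt (fun i : Fin N => ¬ B.Triv (false, i)) := by
    exact_mod_cast h3
  have h6 : (cnt (fun i : Fin N => ¬ (A.Triv (true, i) ∧ B.Triv (true, i))) : ℝ) ≤
      cnt (fun i : Fin N => ¬ A.Triv (true, i)) + cnt (fun i : Fin N => ¬ B.Triv (true, i)) := by
    exact_mod_cast h4
  have h7 : (0:ℝ) ≤ cnt (fun i : Fin N => ¬ (A.Triv (false, i) ∧ B.Triv (false, i))) :=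
    Nat.cast_nonneg _
  have h8 : (0:ℝ) ≤ cnt (fun i : Fin N => ¬ (A.Triv (true, i) ∧ B.Triv (true, i))) :=
    Nat.cast_nonneg _
  set x : ℝ := (cnt (fun i : Fin N => ¬ (A.Triv (false, i) ∧ B.Triv (false, i))) : ℝ)
  set y : ℝ := (cnt (fun i : Fin N => ¬ (A.Triv (true, i) ∧ B.Triv (true, i))) : ℝ)
  have h9 : x + y ≤ 2 * K := by linarith
  nlinarith [sq_nonneg (x - y)]

/-- The approximation theorem. -/
theorem approx (hξ : Dom ρ ξ lam eta) (hυ : Dom ρ υ lam eta) (hlam : 0 < lam) (heta : 0 ≤ eta)
    (hτ : 0 < τ) (hK : τ / lam ≤ K) (hK1 : 1 ≤ K) {s m : ℕ} {S : Set ((Bool × Fin N → V) → ℝ)}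
    (hS : Circ (Leaf (Bool × Fin N) V) s m S) :
    ∃ (Ep : Fin N × Fin N × W → Prop) (En : (Bool × Fin N → R) → Prop),
      (cnt Ep : ℝ) ≤ (s * K ^ 2 + (s + m) * (2 * eta * (N : ℝ) ^ 2)) * Fintype.card W ∧
      (cnt En : ℝ) ≤ (s + m) * Real.exp (-τ) * Fintype.card (Bool × Fin N → R) ∧
      ∀ f ∈ S, ∃ A : Apx (Bool × Fin N) V, (cnt (fun i => ¬ A.Triv i) : ℝ) ≤ K ∧
        (∀ p, ¬ Ep p → f (posIn ξ υ p) ≤ A.val (posIn ξ υ p)) ∧
        ∀ r, ¬ En r → A.val (fun i => ρ (r i)) ≤ f fun i => ρ (r i) := by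
  classical
  induction hS with
  | zero =>
    refine ⟨fun _ => False, fun _ => False, ?_, ?_, ?_⟩
    · rw [cnt_eq_zero fun _ h => h]
      simp
    · rw [cnt_eq_zero fun _ h => h]
      simp
    · rintro f (⟨c, rfl⟩ | ⟨i, u, hu, rfl⟩)
      · refine ⟨⟨c, fun _ _ => c, fun _ _ _ _ => le_rfl, fun _ => rfl⟩, ?_, ?_, ?_⟩
        · rw [cnt_eq_zero fun i h => h fun _ => rfl]
          simp only [Nat.cast_zero]
          linarith
        · intro p _
          exact Apx.c_le_val (κ := Bool × Fin N) (V := V) ⟨c, fun _ _ => c,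
            fun _ _ _ _ => le_rfl, fun _ => rfl⟩ _
        · intro r _
          exact Apx.val_le fun _ => le_rfl
      · refine ⟨⟨u ⊥, fun j v => if j = i then u v else u ⊥, ?_, ?_⟩, ?_, ?_, ?_⟩
        · intro j v w hvw
          show (if j = i then u v else u ⊥) ≤ if j = i then u w else u ⊥
          split_ifs
          · exact hu hvw
          · exact le_rfl
        · intro j
          split_ifs <;> rfl
        · refine le_trans ?_ hK1
          norm_cast
          rw [cnt_eq, Finset.card_le_one]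
          intro a ha b hb
          simp only [mem_filter, mem_univ, true_and] at ha hb
          have h1 : ∀ j, j ≠ i → Apx.Triv ⟨u ⊥, fun j v => if j = i then u v else u ⊥, by
              intro j v w hvw
              show (if j = i then u v else u ⊥) ≤ if j = i then u w else u ⊥
              split_ifs
              · exact hu hvw
              · exact le_rfl, by
              intro j
              split_ifs <;> rfl⟩ j := fun j hj v => if_neg hj
          by_cases ha' : a = i
          · by_cases hb' : b = i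
            · rw [ha', hb']
            · exact absurd (h1 b hb') hb
          · exact absurd (h1 a ha') ha
        · intro p _
          refine le_trans (le_of_eq ?_) (Apx.le_val _ _ i)
          exact (if_pos rfl).symm
        · intro r _
          refine Apx.val_le fun j => ?_
          show (if j = i then u (ρ (r j)) else u ⊥) ≤ u (ρ (r i))
          split_ifs with h
          · rw [h]
          · exact hu bot_le
  | @gate s m S f g φ hφ hS hf hg ih =>
    obtain ⟨Ep, En, h1, h2, h3⟩ := ih
    obtain ⟨A, hA, hAp, hAn⟩ := h3 f hf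
    obtain ⟨B, hB, hBp, hBn⟩ := h3 g hg
    let D : Apx (Bool × Fin N) V := ⟨φ A.c B.c, fun i v => φ (A.u i v) (B.u i v),
      fun i v w hvw => hφ _ _ _ _ (A.mono i hvw) (B.mono i hvw), fun i => by
        rw [A.bot, B.bot]⟩
    obtain ⟨A', T, t1, t2, t3, t4, t5, t6⟩ := trim ρ D hτ hlam
    refine ⟨fun p => Ep p ∨ (E1 W A B p ∨ E2 ξ υ D A' T p),
      fun r => En r ∨ ∀ i, D.u i (ρ (r i)) < A'.c, ?_, ?_, ?_⟩
    · have e1 := cnt_or_le Ep (fun p => E1 W A B p ∨ E2 ξ υ D A' T p)
      have e2 := cnt_or_le (E1 W A B) (E2 ξ υ D A' T)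
      have e3 : (cnt (fun p => Ep p ∨ (E1 W A B p ∨ E2 ξ υ D A' T p)) : ℝ) ≤
          cnt Ep + (cnt (E1 W A B) + cnt (E2 ξ υ D A' T)) := by
        exact_mod_cast e1.trans (Nat.add_le_add_left e2 _)
      have e4 := E1_cnt (W := W) hA hB
      have e5 := E2_cnt hξ hυ t4 heta
      refine e3.trans ?_
      push_cast
      nlinarith
    · have e1 := cnt_or_le En (fun r => ∀ i, D.u i (ρ (r i)) < A'.c)
      have e3 : (cnt (fun r => En r ∨ ∀ i, D.u i (ρ (r i)) < A'.c) : ℝ) ≤
          cnt En + cnt (fun r : Bool × Fin N → R => ∀ i, D.u i (ρ (r i)) < A'.c) := by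
        exact_mod_cast e1
      refine e3.trans ?_
      push_cast
      linarith
    · intro h hh
      rcases hh with rfl | hh
      · refine ⟨A', t1.trans hK, ?_, ?_⟩
        · intro p hp
          rw [not_or, not_or] at hp
          obtain ⟨hp1, hp2, hp3⟩ := hp
          have k1 := hφ _ _ _ _ (hAp p hp1) (hBp p hp1)
          refine k1.trans ?_
          have k2 : ∀ b : Bool, ∀ k : Fin N, (∀ i, i ≠ (b, k) →
              A.u i (posIn ξ υ p i) = A.c ∧ B.u i (posIn ξ υ p i) = B.c) →
              φ (A.val (posIn ξ υ p)) (B.val (posIn ξ υ p)) ≤ A'.val (posIn ξ υ p) := by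
            intro b k hk
            have k3 : A.val (posIn ξ υ p) ≤ A.u (b, k) (posIn ξ υ p (b, k)) := by
              refine Apx.val_le fun i => ?_
              by_cases hi : i = (b, k)
              · rw [hi]
              · rw [(hk i hi).1]
                exact A.c_le _ _
            have k4 : B.val (posIn ξ υ p) ≤ B.u (b, k) (posIn ξ υ p (b, k)) := by
              refine Apx.val_le fun i => ?_
              by_cases hi : i = (b, k)
              · rw [hi]
              · rw [(hk i hi).2]
                exact B.c_le _ _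
            exact (hφ _ _ _ _ k3 k4).trans (le_val_of_not_E2 t2 t3 hp3 (b, k))
          have k5 : (A.Triv (false, p.1) ∧ B.Triv (false, p.1)) ∨
              (A.Triv (true, p.2.1) ∧ B.Triv (true, p.2.1)) := by
            by_contra hcon
            rw [not_or] at hcon
            exact hp2 hcon
          rcases k5 with k5 | k5
          · refine k2 true p.2.1 fun i hi => ?_
            by_cases h : i = (false, p.1)
            · rw [h]
              exact ⟨k5.1 _, k5.2 _⟩
            · have : posIn ξ υ p i = ⊥ := by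
                rw [posIn, if_neg h, if_neg hi]
              rw [this]
              exact ⟨A.bot i, B.bot i⟩
          · refine k2 false p.1 fun i hi => ?_
            by_cases h : i = (true, p.2.1)
            · rw [h]
              exact ⟨k5.1 _, k5.2 _⟩
            · have : posIn ξ υ p i = ⊥ := by
                rw [posIn, if_neg hi, if_neg h]
              rw [this]
              exact ⟨A.bot i, B.bot i⟩
        · intro r hr
          rw [not_or, not_forall] at hr
          obtain ⟨hr1, i0, hi0⟩ := hr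
          have k0 : ∀ i, D.u i (ρ (r i)) ≤ φ (f fun i => ρ (r i)) (g fun i => ρ (r i)) := by
            intro i
            exact hφ _ _ _ _ ((A.le_val (fun i => ρ (r i)) i).trans (hAn r hr1))
              ((B.le_val (fun i => ρ (r i)) i).trans (hBn r hr1))
          refine Apx.val_le fun i => (t5 i _).trans (max_le ?_ (k0 i))
          exact (not_lt.1 hi0).trans (k0 i0)
      · obtain ⟨A0, a1, a2, a3⟩ := h3 h hh
        exact ⟨A0, a1, fun p hp => a2 p fun h => hp (Or.inl h),
          fun r hr => a3 r fun h => hr (Or.inl h)⟩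
  | @sup s m S k f hS hf ih =>
    obtain ⟨Ep, En, h1, h2, h3⟩ := ih
    choose A hA hAp hAn using fun t => h3 (f t) (hf t)
    have hbdd : ∀ F : Fin (k + 1) → ℝ, BddAbove (Set.range F) := fun F =>
      (Set.finite_range F).bddAbove
    let D : Apx (Bool × Fin N) V := ⟨⨆ t, (A t).c, fun i v => ⨆ t, (A t).u i v,
      fun i v w hvw => ciSup_mono (hbdd _) fun t => (A t).mono i hvw, fun i => by
        congr 1
        funext t
        exact (A t).bot i⟩
    obtain ⟨A', T, t1, t2, t3, t4, t5, t6⟩ := trim ρ D hτ hlam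
    refine ⟨fun p => Ep p ∨ E2 ξ υ D A' T p,
      fun r => En r ∨ ∀ i, D.u i (ρ (r i)) < A'.c, ?_, ?_, ?_⟩
    · have e1 := cnt_or_le Ep (fun p => E2 ξ υ D A' T p)
      have e3 : (cnt (fun p => Ep p ∨ E2 ξ υ D A' T p) : ℝ) ≤
          cnt Ep + cnt (E2 ξ υ D A' T) := by
        exact_mod_cast e1
      have e5 := E2_cnt hξ hυ t4 heta
      refine e3.trans ?_
      push_cast
      nlinarith
    · have e1 := cnt_or_le En (fun r => ∀ i, D.u i (ρ (r i)) < A'.c)
      have e3 : (cnt (fun r => En r ∨ ∀ i, D.u i (ρ (r i)) < A'.c) : ℝ) ≤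
          cnt En + cnt (fun r : Bool × Fin N → R => ∀ i, D.u i (ρ (r i)) < A'.c) := by
        exact_mod_cast e1
      refine e3.trans ?_
      push_cast
      linarith
    · intro h hh
      rcases hh with rfl | hh
      · refine ⟨A', t1.trans hK, ?_, ?_⟩
        · intro p hp
          rw [not_or] at hp
          refine ciSup_le fun t => (hAp t p hp.1).trans (Apx.val_le fun i => ?_)
          exact (le_ciSup (f := fun t => (A t).u i (posIn ξ υ p i)) (hbdd _) t).trans
            (le_val_of_not_E2 t2 t3 hp.2 i)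
        · intro r hr
          rw [not_or, not_forall] at hr
          obtain ⟨hr1, i0, hi0⟩ := hr
          have k0 : ∀ i, D.u i (ρ (r i)) ≤ ⨆ t, f t fun i => ρ (r i) := by
            intro i
            refine ciSup_mono (hbdd _) fun t => ?_
            exact ((A t).le_val (fun i => ρ (r i)) i).trans (hAn t r hr1)
          refine Apx.val_le fun i => (t5 i _).trans (max_le ?_ (k0 i))
          exact (not_lt.1 hi0).trans (k0 i0)
      · obtain ⟨A0, a1, a2, a3⟩ := h3 h hh
        exact ⟨A0, a1, fun p hp => a2 p fun h => hp (Or.inl h),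
          fun r hr => a3 r fun h => hr (Or.inl h)⟩

/-- Small circuits do not distinguish the two distributions. -/
theorem core (hξ : Dom ρ ξ lam eta) (hυ : Dom ρ υ lam eta) (hlam : 0 < lam) (heta : 0 ≤ eta)
    (hτ : 0 < τ) (hK : τ / lam ≤ K) (hK1 : 1 ≤ K) {s m : ℕ} {S : Set ((Bool × Fin N → V) → ℝ)}
    (hS : Circ (Leaf (Bool × Fin N) V) s m S) {f : (Bool × Fin N → V) → ℝ} (hf : f ∈ S) :
    (cnt (fun p : Fin N × Fin N × W => 0 < f (posIn ξ υ p)) : ℝ) /
        Fintype.card (Fin N × Fin N × W) ≤
      (cnt (fun r : Bool × Fin N → R => 0 < f fun i => ρ (r i)) : ℝ) /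
        Fintype.card (Bool × Fin N → R) +
      (K / N + s * K ^ 2 / (N : ℝ) ^ 2 + (s + m) * (2 * eta + Real.exp (-τ))) := by
  classical
  obtain ⟨Ep, En, h1, h2, h3⟩ := approx (W := W) hξ hυ hlam heta hτ hK hK1 hS
  obtain ⟨A, hA, hAp, hAn⟩ := h3 f hf
  have hN : (0:ℝ) < N := by
    exact_mod_cast Nat.pos_of_ne_zero (NeZero.ne N)
  have hW : (0:ℝ) < Fintype.card W := by exact_mod_cast Fintype.card_pos
  have hR : (0:ℝ) < Fintype.card (Bool × Fin N → R) := by exact_mod_cast Fintype.card_pos
  have hcard : (Fintype.card (Fin N × Fin N × W) : ℝ) = (N:ℝ) ^ 2 * Fintype.card W := by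
    simp only [Fintype.card_prod, Fintype.card_fin]
    push_cast
    ring
  have hK0 : 0 ≤ K := by linarith
  have hexp := Real.exp_pos (-τ)
  rcases le_or_gt A.c 0 with hc | hc
  · have k1 : cnt (fun p : Fin N × Fin N × W => 0 < f (posIn ξ υ p)) ≤
        cnt Ep + (cnt (fun p : Fin N × Fin N × W => ¬ A.Triv (false, p.1)) +
          cnt (fun p : Fin N × Fin N × W => ¬ A.Triv (true, p.2.1))) := by
      refine le_trans (cnt_le_of fun p hp => ?_) ((cnt_or_le _ _).trans
        (Nat.add_le_add_left (cnt_or_le _ _) _))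
      by_contra hcon
      rw [not_or, not_or, not_not, not_not] at hcon
      obtain ⟨q1, q2, q3⟩ := hcon
      have q4 := (hp.trans_le (hAp p q1))
      have q5 : A.val (posIn ξ υ p) ≤ A.c := by
        refine Apx.val_le fun i => ?_
        unfold posIn
        split_ifs with i1 i2
        · rw [i1, q2]
        · rw [i2, q3]
        · rw [A.bot]
      linarith
    have k2 : cnt (fun p : Fin N × Fin N × W => ¬ A.Triv (false, p.1)) =
        cnt (fun i => ¬ A.Triv (false, i)) * (N * Fintype.card W) := by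
      have := cnt_fst (α := Fin N) (β := Fin N × W) (fun i => ¬ A.Triv (false, i))
      rw [this, Fintype.card_prod, Fintype.card_fin]
    have k3 : cnt (fun p : Fin N × Fin N × W => ¬ A.Triv (true, p.2.1)) =
        N * (cnt (fun i => ¬ A.Triv (true, i)) * Fintype.card W) := by
      have e1 := cnt_snd (α := Fin N) (β := Fin N × W) (fun q => ¬ A.Triv (true, q.1))
      have e2 := cnt_fst (α := Fin N) (β := W) (fun i => ¬ A.Triv (true, i))
      rw [e1, e2, Fintype.card_fin]
    rw [cnt_bool] at hA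
    have k4 : (cnt (fun p : Fin N × Fin N × W => 0 < f (posIn ξ υ p)) : ℝ) ≤
        cnt Ep + K * (N * Fintype.card W) := by
      have := Nat.cast_le (α := ℝ).2 k1
      rw [k2, k3] at this
      push_cast at this hA
      refine this.trans ?_
      have e3 : (0:ℝ) ≤ N * Fintype.card W := by positivity
      have e4 := mul_le_mul_of_nonneg_right hA e3
      nlinarith
    have k5 : (0:ℝ) ≤ (cnt (fun r : Bool × Fin N → R => 0 < f fun i => ρ (r i)) : ℝ) /
        Fintype.card (Bool × Fin N → R) := by positivity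
    rw [hcard, div_le_iff₀ (by positivity)]
    have k6 : (cnt Ep : ℝ) + K * (N * Fintype.card W) ≤
        (K / N + s * K ^ 2 / (N : ℝ) ^ 2 + (s + m) * (2 * eta)) * ((N:ℝ) ^ 2 *
          Fintype.card W) := by
      refine (add_le_add_left h1 _).trans (le_of_eq ?_)
      field_simp
      ring
    have k7 : (K / N + s * K ^ 2 / (N : ℝ) ^ 2 + (s + m) * (2 * eta)) ≤
        (cnt (fun r : Bool × Fin N → R => 0 < f fun i => ρ (r i)) : ℝ) /
        Fintype.card (Bool × Fin N → R) +
      (K / N + s * K ^ 2 / (N : ℝ) ^ 2 + (s + m) * (2 * eta + Real.exp (-τ))) := by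
      have : (0:ℝ) ≤ (s + m) * Real.exp (-τ) := by positivity
      nlinarith
    exact (k4.trans k6).trans (mul_le_mul_of_nonneg_right k7 (by positivity))
  · have k1 : (cnt (fun p : Fin N × Fin N × W => 0 < f (posIn ξ υ p)) : ℝ) /
        Fintype.card (Fin N × Fin N × W) ≤ 1 := by
      rw [div_le_one (by rw [hcard]; positivity)]
      exact_mod_cast cnt_le _
    have k2 : (Fintype.card (Bool × Fin N → R) : ℝ) - cnt En ≤
        cnt (fun r : Bool × Fin N → R => 0 < f fun i => ρ (r i)) := by
      rw [← cnt_not]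
      norm_cast
      refine cnt_le_of fun r hr => ?_
      exact hc.trans_le ((A.c_le_val _).trans (hAn r hr))
    have k3 : 1 - (s + m) * Real.exp (-τ) ≤
        (cnt (fun r : Bool × Fin N → R => 0 < f fun i => ρ (r i)) : ℝ) /
        Fintype.card (Bool × Fin N → R) := by
      rw [le_div_iff₀ hR]
      nlinarith
    have k4 : (0:ℝ) ≤ K / N + s * K ^ 2 / (N : ℝ) ^ 2 + (s + m) * (2 * eta) := by positivity
    nlinarith

end approx

end Pool.Agent.V8H43.OV
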