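import Mathlib
import Pool.Agent.V8H43.OV.Approx

/-!
# The distributions of the items: random bits
-/

set_option autoImplicit false

open Finset

namespace Pool.Agent.V8H43.OV

section

variable {D q t : ℕ} [NeZero q]

/-- negative items: every bit is `false` with probability `1 / q` -/
def rho (r : Fin D → Fin q) : Fin D → Bool := fun l => decide (r l ≠ 0)

/-- positive items of the first side -/
def xi (w : Fin D → Fin t → Fin q) : Fin D → Bool := fun l => decide (∀ k, w l k ≠ 0)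

/-- positive items of the second side -/
def ups (w : Fin D → Fin t → Fin q) : Fin D → Bool := fun l => !(xi w l)

theorem cnt_pi {α β : Type} [Fintype α] [Fintype β] [DecidableEq α] (p : β → Prop) :
    cnt (fun f : α → β => ∀ a, p (f a)) = cnt p ^ Fintype.card α := by
  classical
  have h1 : (univ.filter fun f : α → β => ∀ a, p (f a)) =
      Fintype.piFinset fun _ => univ.filter p := by
    ext f
    simp [Fintype.mem_piFinset]
  rw [cnt_eq (fun f : α → β => ∀ a, p (f a)), h1, Fintype.card_piFinset, Finset.prod_const,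
    Finset.card_univ, cnt_eq]

theorem dom_xi {lam : ℝ} :
    Dom (rho (D := D) (q := q)) (xi (q := q) (t := t)) lam (lam ^ t) := by
  intro u hu θ h
  have h1 : cnt (fun w : Fin D → Fin t → Fin q => θ < u (xi w)) ≤
      cnt (fun w : Fin D → Fin t → Fin q => ∀ k, θ < u (rho fun l => w l k)) := by
    refine cnt_le_of fun w hw k => hw.trans_le (hu fun l => ?_)
    intro hl
    simp only [xi, rho, decide_eq_true_eq] at hl ⊢
    exact hl k
  have h2 : cnt (fun w : Fin D → Fin t → Fin q => ∀ k, θ < u (rho fun l => w l k)) =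
      cnt (fun v : Fin t → Fin D → Fin q => ∀ k, θ < u (rho (v k))) :=
    cnt_equiv (Equiv.piComm fun _ _ => Fin q)
      (fun v : Fin t → Fin D → Fin q => ∀ k, θ < u (rho (v k)))
  have h3 := cnt_pi (α := Fin t) (fun r : Fin D → Fin q => θ < u (rho r))
  rw [Fintype.card_fin] at h3
  have h4 : (cnt (fun w : Fin D → Fin t → Fin q => θ < u (xi w)) : ℝ) ≤
      (cnt (fun r : Fin D → Fin q => θ < u (rho r)) : ℝ) ^ t := by
    exact_mod_cast h1.trans (le_of_eq (h2.trans h3))
  have h5 : (Fintype.card (Fin D → Fin t → Fin q) : ℝ) =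
      (Fintype.card (Fin D → Fin q) : ℝ) ^ t := by
    simp only [Fintype.card_fun, Fintype.card_fin]
    push_cast
    rw [← pow_mul, ← pow_mul, mul_comm]
  rw [h5, ← mul_pow]
  exact h4.trans (pow_le_pow_left₀ (Nat.cast_nonneg _) h.le t)

/-- `2 (q - 1) ^ t ≥ q ^ t` if `q ≥ 2 t`. -/
theorem half_le (hq : 2 * t ≤ q) : (q : ℝ) ^ t ≤ 2 * ((q : ℝ) - 1) ^ t := by
  have hq0 : (0:ℝ) < q := by exact_mod_cast Nat.pos_of_ne_zero (NeZero.ne q)
  have hq1 : (1:ℝ) ≤ q := by exact_mod_cast Nat.one_le_iff_ne_zero.2 (NeZero.ne q)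
  have h1 : -2 ≤ -(1 / (q:ℝ)) := by
    rw [neg_le_neg_iff, div_le_iff₀ hq0]
    linarith
  have h2 := one_add_mul_le_pow h1 t
  have h3 : (1:ℝ) / 2 ≤ 1 + t * -(1 / (q:ℝ)) := by
    have h4 : (2:ℝ) * t ≤ q := by exact_mod_cast hq
    have h5 : (t:ℝ) * (1 / q) ≤ 1 / 2 := by
      rw [mul_one_div, div_le_iff₀ hq0]
      linarith
    linarith
  have h6 : (1 + -(1 / (q:ℝ))) ^ t * (q:ℝ) ^ t = ((q:ℝ) - 1) ^ t := by
    rw [← mul_pow]
    congr 1
    field_simp
    ring
  have h7 : (0:ℝ) < (q:ℝ) ^ t := by positivity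
  nlinarith

/-- The permutation which moves the words with a zero to words without zero. -/
theorem exists_perm (hq : 2 * t ≤ q) : ∃ σ : Equiv.Perm (Fin t → Fin q),
    ∀ w, (∃ k, w k = 0) → ∀ k, σ w k ≠ 0 := by
  classical
  have hq1 : (1:ℝ) ≤ q := by exact_mod_cast Nat.one_le_iff_ne_zero.2 (NeZero.ne q)
  have hpos : cnt (fun w : Fin t → Fin q => ∀ k, w k ≠ 0) = (q - 1) ^ t := by
    rw [cnt_pi (fun a : Fin q => a ≠ 0), Fintype.card_fin]
    congr 1
    rw [cnt_eq]
    simp [Finset.filter_ne']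
  have hneg : (cnt (fun w : Fin t → Fin q => ∃ k, w k = 0) : ℝ) ≤
      cnt (fun w : Fin t → Fin q => ∀ k, w k ≠ 0) := by
    have h1 := cnt_not (fun w : Fin t → Fin q => ∀ k, w k ≠ 0)
    have h2 : (fun w : Fin t → Fin q => ¬ ∀ k, w k ≠ 0) = fun w => ∃ k, w k = 0 := by
      funext w
      simp
    rw [h2, hpos] at h1
    rw [h1, hpos, Fintype.card_fun, Fintype.card_fin, Fintype.card_fin]
    have h3 := half_le (t := t) (q := q) hq
    push_cast [Nat.cast_sub (Nat.one_le_iff_ne_zero.2 (NeZero.ne q))]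
    linarith
  have hneg' : cnt (fun w : Fin t → Fin q => ∃ k, w k = 0) ≤
      cnt (fun w : Fin t → Fin q => ∀ k, w k ≠ 0) := by exact_mod_cast hneg
  rw [cnt_eq, cnt_eq] at hneg'
  obtain ⟨s, hs1, hs2⟩ := Finset.exists_subset_card_eq hneg'
  have e : {w // w ∈ univ.filter fun w : Fin t → Fin q => ∃ k, w k = 0} ≃ {w // w ∈ s} :=
    Finset.equivOfCardEq hs2.symm
  refine ⟨e.extendSubtype, fun w hw => ?_⟩
  have h1 : w ∈ univ.filter fun w : Fin t → Fin q => ∃ k, w k = 0 := by simpa using hw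
  have h2 := e.extendSubtype_mem w h1
  simpa using hs1 h2

theorem dom_ups {lam : ℝ} (hq : 2 * t ≤ q) :
    Dom (rho (D := D) (q := q)) (ups (q := q) (t := t)) lam (lam ^ t) := by
  intro u hu θ h
  obtain ⟨σ, hσ⟩ := exists_perm (t := t) (q := q) hq
  have h1 : cnt (fun w : Fin D → Fin t → Fin q => θ < u (ups w)) ≤
      cnt (fun w : Fin D → Fin t → Fin q => θ < u (xi fun l => σ (w l))) := by
    refine cnt_le_of fun w hw => hw.trans_le (hu fun l => ?_)
    intro hl
    simp only [ups, xi, Bool.not_eq_true', decide_eq_false_iff_not, not_forall, not_not,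
      decide_eq_true_eq] at hl ⊢
    exact hσ _ hl
  have h2 : cnt (fun w : Fin D → Fin t → Fin q => θ < u (xi fun l => σ (w l))) =
      cnt (fun w : Fin D → Fin t → Fin q => θ < u (xi w)) :=
    cnt_equiv (Equiv.piCongrRight fun _ => σ)
      (fun w : Fin D → Fin t → Fin q => θ < u (xi w))
  rw [h2] at h1
  exact (Nat.cast_le.2 h1).trans (dom_xi u hu θ h)

/-- Two independent negative items have a common `false` bit with high probability. -/
theorem cnt_pair : (cnt (fun p : (Fin D → Fin q) × (Fin D → Fin q) =>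
    ∀ l, ¬ (p.1 l = 0 ∧ p.2 l = 0)) : ℝ) ≤
      Real.exp (-(D / (q:ℝ) ^ 2)) * Fintype.card ((Fin D → Fin q) × (Fin D → Fin q)) := by
  classical
  have hq0 : (0:ℝ) < q := by exact_mod_cast Nat.pos_of_ne_zero (NeZero.ne q)
  have h1 : cnt (fun p : (Fin D → Fin q) × (Fin D → Fin q) => ∀ l, ¬ (p.1 l = 0 ∧ p.2 l = 0)) =
      cnt (fun p : Fin D → Fin q × Fin q => ∀ l, ¬ ((p l).1 = 0 ∧ (p l).2 = 0)) :=
    (cnt_equiv (Equiv.arrowProdEquivProdArrow (Fin D) (fun _ => Fin q) (fun _ => Fin q))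
      (fun p : (Fin D → Fin q) × (Fin D → Fin q) => ∀ l, ¬ (p.1 l = 0 ∧ p.2 l = 0))).symm
  have h2 : cnt (fun p : Fin D → Fin q × Fin q => ∀ l, ¬ ((p l).1 = 0 ∧ (p l).2 = 0)) =
      cnt (fun p : Fin q × Fin q => ¬ (p.1 = 0 ∧ p.2 = 0)) ^ D := by
    have := cnt_pi (α := Fin D) (fun p : Fin q × Fin q => ¬ (p.1 = 0 ∧ p.2 = 0))
    rwa [Fintype.card_fin] at this
  have h3 : (cnt (fun p : Fin q × Fin q => ¬ (p.1 = 0 ∧ p.2 = 0)) : ℝ) = (q:ℝ) ^ 2 - 1 := by
    have h0 : cnt (fun a : Fin q => a = 0) = 1 := by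
      rw [cnt_eq, Finset.card_eq_one]
      exact ⟨0, by ext a; simp⟩
    rw [cnt_not, cnt_prod (fun a : Fin q => a = 0) (fun a : Fin q => a = 0), Fintype.card_prod,
      Fintype.card_fin, h0]
    push_cast
    ring
  rw [h1, h2]
  push_cast
  rw [h3, Fintype.card_prod, Fintype.card_fun, Fintype.card_fin, Fintype.card_fin]
  have h4 : (q:ℝ) ^ 2 - 1 ≤ (q:ℝ) ^ 2 * Real.exp (-(1 / (q:ℝ) ^ 2)) := by
    have h5 := Real.add_one_le_exp (-(1 / (q:ℝ) ^ 2))
    have h6 := mul_le_mul_of_nonneg_left h5 (show (0:ℝ) ≤ (q:ℝ) ^ 2 by positivity)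
    refine le_trans (le_of_eq ?_) h6
    field_simp
    ring
  have hq1 : (1:ℝ) ≤ q := by exact_mod_cast Nat.one_le_iff_ne_zero.2 (NeZero.ne q)
  refine (pow_le_pow_left₀ (by nlinarith) h4 D).trans (le_of_eq ?_)
  rw [mul_pow, ← Real.exp_nat_mul]
  push_cast
  rw [← pow_mul, mul_comm]
  congr 1
  · congr 1
    ring
  · ring

end

section eval

variable {I R : Type} [Fintype I] [DecidableEq I] [Fintype R]

/-- Two different coordinates of a random function are independent. -/
theorem cnt_two {i j : I} (hij : i ≠ j) (p : R × R → Prop) :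
    (cnt (fun f : I → R => p (f i, f j)) : ℝ) * Fintype.card (R × R) =
      cnt p * Fintype.card (I → R) := by
  classical
  let e1 := Equiv.funSplitAt i R
  let j' : {k // k ≠ i} := ⟨j, hij.symm⟩
  let e2 := Equiv.funSplitAt j' R
  have h1 : cnt (fun f : I → R => p (f i, f j)) =
      cnt (fun x : (R × R) × ({k : {k // k ≠ i} // k ≠ j'} → R) => p x.1) := by
    let e : (I → R) ≃ (R × R) × ({k : {k // k ≠ i} // k ≠ j'} → R) :=
      (e1.trans (Equiv.prodCongr (Equiv.refl R) e2)).trans (Equiv.prodAssoc _ _ _).symm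
    exact cnt_equiv e (fun x => p x.1)
  have hc : Fintype.card (I → R) =
      Fintype.card ((R × R) × ({k : {k // k ≠ i} // k ≠ j'} → R)) :=
    Fintype.card_congr ((e1.trans (Equiv.prodCongr (Equiv.refl R) e2)).trans
      (Equiv.prodAssoc _ _ _).symm)
  rw [h1, cnt_fst, hc, Fintype.card_prod (α := R × R)]
  push_cast
  ring

end eval

end Pool.Agent.V8H43.OV
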