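import Mathlib
import Pool.Agent.V8H43.OV.Approx

/-!
# Programs with few tests, and the chain of inputs
-/

set_option autoImplicit false

open Finset

namespace Pool.Agent.V8H43.OV

/-- The predicates decided by programs: `S` is the set of the functions whose values are available,
`s` bounds the number of binary operations and tests, `m` the number of maxima on every path, and
`l` the number of leaves of the tree of the tests. -/
inductive Dec {X : Type} : Set (X → ℝ) → ℕ → ℕ → ℕ → (X → Bool) → Prop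
  | halt {S : Set (X → ℝ)} {s m l : ℕ} (b : Bool) (hl : 1 ≤ l) : Dec S s m l fun _ => b
  | gate {S : Set (X → ℝ)} {s m l : ℕ} {F : X → Bool} {f g : X → ℝ} (φ : ℝ → ℝ → ℝ)
      (hφ : ∀ a a' b b', a ≤ a' → b ≤ b' → φ a b ≤ φ a' b') (hf : f ∈ S) (hg : g ∈ S)
      (h : Dec (insert (fun z => φ (f z) (g z)) S) s m l F) : Dec S (s + 1) m l F
  | sup {S : Set (X → ℝ)} {s m l : ℕ} {F : X → Bool} (k : ℕ) (f : Fin (k + 1) → X → ℝ)
      (hf : ∀ t, f t ∈ S) (h : Dec (insert (fun z => ⨆ t, f t z) S) s m l F) :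
      Dec S s (m + 1) l F
  | test {S : Set (X → ℝ)} {s m l l' : ℕ} {F F' : X → Bool} {f : X → ℝ} (hf : f ∈ S)
      (h : Dec S s m l F) (h' : Dec S s m l' F') :
      Dec S (s + 1) m (l + l') fun z => if 0 < f z then F z else F' z

theorem Dec.comp {X X' : Type} (G : X' → X) {S : Set (X → ℝ)} {s m l : ℕ} {F : X → Bool}
    (h : Dec S s m l F) : ∀ S' : Set (X' → ℝ), (∀ f ∈ S, (fun z => f (G z)) ∈ S') →
      Dec S' s m l fun z => F (G z) := by
  induction h with
  | halt b hl => exact fun S' _ => Dec.halt b hl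
  | gate φ hφ hf hg h ih =>
    intro S' hS
    refine Dec.gate φ hφ (hS _ hf) (hS _ hg) (ih _ ?_)
    rintro h (rfl | hh)
    · exact Set.mem_insert _ _
    · exact Set.mem_insert_of_mem _ (hS _ hh)
  | sup k f hf h ih =>
    intro S' hS
    refine Dec.sup k (fun t z => f t (G z)) (fun t => hS _ (hf t)) (ih _ ?_)
    rintro h (rfl | hh)
    · exact Set.mem_insert _ _
    · exact Set.mem_insert_of_mem _ (hS _ hh)
  | test hf h h' ih ih' =>
    intro S' hS
    exact Dec.test (hS _ hf) (ih _ hS) (ih' _ hS)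

section asm

variable {V R W : Type} [PartialOrder V] [OrderBot V] {N B n : ℕ} [NeZero N]

/-- The input: random items in the blocks before the block `k`, the block `k` is given, the later
items are `⊥`. -/
def asm (ρ : R → V) (k : ℕ) (z : Bool × Fin N → V) (r : Fin B → Bool × Fin N → R) :
    Bool × Fin n → V := fun x =>
  if h : x.2.val / N < B then
    if x.2.val / N < k then ρ (r ⟨x.2.val / N, h⟩ (x.1, ⟨x.2.val % N, Nat.mod_lt _
      (Nat.pos_of_ne_zero (NeZero.ne N))⟩))
    else if x.2.val / N = k then z (x.1, ⟨x.2.val % N, Nat.mod_lt _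
      (Nat.pos_of_ne_zero (NeZero.ne N))⟩)
    else ⊥
  else ⊥

/-- The no-instances of the chain. -/
def noIn (ρ : R → V) (k : ℕ) (r : Fin B → Bool × Fin N → R) : Bool × Fin n → V :=
  asm ρ k (fun _ => ⊥) r

omit [OrderBot V] in
theorem asm_update [OrderBot V] (ρ : R → V) (k : Fin B) (z : Bool × Fin N → V)
    (r : Fin B → Bool × Fin N → R) (y : Bool × Fin N → R) :
    asm (n := n) ρ k z (Function.update r k y) = asm ρ k z r := by
  funext x
  unfold asm
  split_ifs with h1 h2 h3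
  · have : (⟨x.2.val / N, h1⟩ : Fin B) ≠ k := by
      intro h
      rw [← h] at h2
      simp at h2
    rw [Function.update_of_ne this]
  · rfl
  · rfl
  · rfl

theorem asm_succ (ρ : R → V) (k : Fin B) (r : Fin B → Bool × Fin N → R) :
    asm (n := n) ρ k (fun i => ρ (r k i)) r = noIn ρ (k + 1) r := by
  funext x
  unfold noIn asm
  by_cases h1 : x.2.val / N < B
  · simp only [h1, dite_true]
    rcases lt_trichotomy (x.2.val / N) k.val with h | h | h
    · simp only [h, if_true, Nat.lt_succ_of_lt h]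
    · have h2 : (⟨x.2.val / N, h1⟩ : Fin B) = k := Fin.ext h
      have h3 : x.2.val / N < k.val + 1 := by omega
      have h4 : ¬ x.2.val / N < k.val := by omega
      rw [if_neg h4, if_pos h, if_pos h3, h2]
    · have h2 : ¬ x.2.val / N < k.val := by omega
      have h3 : ¬ x.2.val / N = k.val := by omega
      have h4 : ¬ x.2.val / N < k.val + 1 := by omega
      rw [if_neg h2, if_neg h3, if_neg h4]
      split_ifs <;> rfl
  · simp only [h1, dite_false]

theorem noIn_le_asm (ρ : R → V) (k : ℕ) (z : Bool × Fin N → V)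
    (r : Fin B → Bool × Fin N → R) : noIn (n := n) ρ k r ≤ asm ρ k z r := by
  intro x
  unfold noIn asm
  split_ifs <;> first | exact le_rfl | exact bot_le

theorem leaf_asm (ρ : R → V) (k : ℕ) (r : Fin B → Bool × Fin N → R) :
    ∀ f ∈ Leaf (Bool × Fin n) V, (fun z : Bool × Fin N → V => f (asm ρ k z r)) ∈
      Leaf (Bool × Fin N) V := by
  rintro f (⟨c, rfl⟩ | ⟨i, u, hu, rfl⟩)
  · exact Or.inl ⟨c, rfl⟩
  · by_cases h : ∃ i', ∀ z : Bool × Fin N → V, asm ρ k z r i = z i'
    · obtain ⟨i', hi'⟩ := h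
      refine Or.inr ⟨i', u, hu, ?_⟩
      funext z
      show u (asm ρ k z r i) = u (z i')
      rw [hi' z]
    · refine Or.inl ⟨u (asm ρ k (fun _ => ⊥) r i), ?_⟩
      funext z
      show u (asm ρ k z r i) = u (asm ρ k (fun _ => ⊥) r i)
      refine congrArg u ?_
      by_cases h1 : i.2.val / N < B
      · rcases lt_trichotomy (i.2.val / N) k with h2 | h2 | h2
        · simp only [asm, h1, h2, dite_true, if_true]
        · exfalso
          refine h ⟨(i.1, ⟨i.2.val % N, Nat.mod_lt _ (Nat.pos_of_ne_zero (NeZero.ne N))⟩),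
            fun z => ?_⟩
          unfold asm
          rw [dif_pos h1, if_neg (by omega), if_pos h2]
        · unfold asm
          rw [dif_pos h1, dif_pos h1, if_neg (by omega), if_neg (by omega), if_neg (by omega),
            if_neg (by omega)]
      · simp only [asm, h1, dite_false]

end asm

section chain

variable {V R W : Type} [PartialOrder V] [OrderBot V] [Fintype R] [Fintype W] [Nonempty R]
  [Nonempty W] {N B n : ℕ} [NeZero N] {ρ : R → V} {ξ υ : W → V} {lam eta τ K : ℝ}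

/-- acceptance probability on the no-instances -/
noncomputable def pN (N B : ℕ) [NeZero N] (ρ : R → V) (k : ℕ) (Q : (Bool × Fin n → V) → Prop) : ℝ :=
  (cnt (fun r : Fin B → Bool × Fin N → R => Q (noIn ρ k r)) : ℝ) /
    Fintype.card (Fin B → Bool × Fin N → R)

/-- acceptance probability on the yes-instances -/
noncomputable def pY (N B : ℕ) [NeZero N] (ρ : R → V) (ξ υ : W → V) (k : ℕ)
    (Q : (Bool × Fin n → V) → Prop) : ℝ :=
  (cnt (fun x : (Fin B → Bool × Fin N → R) × (Fin N × Fin N × W) =>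
    Q (asm ρ k (posIn ξ υ x.2) x.1)) : ℝ) /
    (Fintype.card (Fin B → Bool × Fin N → R) * Fintype.card (Fin N × Fin N × W))

theorem cnt_sum {α β : Type} [Fintype α] [Fintype β] (p : α × β → Prop) :
    cnt p = ∑ a, cnt (fun b => p (a, b)) := by
  classical
  simp only [cnt_eq, Finset.card_filter]
  rw [Fintype.sum_prod_type]

theorem pN_nonneg (k : ℕ) (Q : (Bool × Fin n → V) → Prop) : 0 ≤ pN N B ρ k Q := by
  unfold pN
  positivity

theorem pN_le_one (k : ℕ) (Q : (Bool × Fin n → V) → Prop) : pN N B ρ k Q ≤ 1 := by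
  unfold pN
  have h0 : (0:ℝ) < Fintype.card (Fin B → Bool × Fin N → R) := by exact_mod_cast Fintype.card_pos
  rw [div_le_one h0]
  exact_mod_cast cnt_le _

/-- One step of the chain. -/
theorem pY_le (hξ : Dom ρ ξ lam eta) (hυ : Dom ρ υ lam eta) (hlam : 0 < lam) (heta : 0 ≤ eta)
    (hτ : 0 < τ) (hK : τ / lam ≤ K) (hK1 : 1 ≤ K) {s m : ℕ} {S : Set ((Bool × Fin n → V) → ℝ)}
    (hS : Circ (Leaf (Bool × Fin n) V) s m S) {f : (Bool × Fin n → V) → ℝ} (hf : f ∈ S)
    (k : Fin B) :
    pY N B ρ ξ υ k (fun z => 0 < f z) ≤ pN N B ρ (k + 1) (fun z => 0 < f z) +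
      (K / N + s * K ^ 2 / (N : ℝ) ^ 2 + (s + m) * (2 * eta + Real.exp (-τ))) := by
  classical
  set adv : ℝ := K / N + s * K ^ 2 / (N : ℝ) ^ 2 + (s + m) * (2 * eta + Real.exp (-τ)) with hadv
  have hP : (0:ℝ) < Fintype.card (Fin N × Fin N × W) := by exact_mod_cast Fintype.card_pos
  have hRs : (0:ℝ) < Fintype.card (Fin B → Bool × Fin N → R) := by
    exact_mod_cast Fintype.card_pos
  have hR : (0:ℝ) < Fintype.card (Bool × Fin N → R) := by exact_mod_cast Fintype.card_pos
  -- fixed other blocks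
  have h1 : ∀ r : Fin B → Bool × Fin N → R,
      (cnt (fun p : Fin N × Fin N × W => 0 < f (asm ρ k (posIn ξ υ p) r)) : ℝ) ≤
      ((cnt (fun y : Bool × Fin N → R => 0 < f (asm ρ k (fun i => ρ (y i)) r)) : ℝ) /
        Fintype.card (Bool × Fin N → R) + adv) * Fintype.card (Fin N × Fin N × W) := by
    intro r
    obtain ⟨S', hS', hf'⟩ := hS.comp (fun z => asm ρ k z r) (leaf_asm ρ k r)
    have h2 := core hξ hυ hlam heta hτ hK hK1 hS' (hf' f hf)
    rwa [div_le_iff₀ hP] at h2
  have h2 : (cnt (fun x : (Fin B → Bool × Fin N → R) × (Fin N × Fin N × W) =>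
      0 < f (asm ρ k (posIn ξ υ x.2) x.1)) : ℝ) ≤
      (((cnt (fun x : (Fin B → Bool × Fin N → R) × (Bool × Fin N → R) =>
        0 < f (asm ρ k (fun i => ρ (x.2 i)) x.1)) : ℝ) / Fintype.card (Bool × Fin N → R)) +
        Fintype.card (Fin B → Bool × Fin N → R) * adv) * Fintype.card (Fin N × Fin N × W) := by
    rw [cnt_sum, cnt_sum]
    push_cast
    refine (Finset.sum_le_sum fun r _ => h1 r).trans (le_of_eq ?_)
    rw [← Finset.sum_mul, Finset.sum_add_distrib, Finset.sum_const, Finset.card_univ,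
      nsmul_eq_mul, Finset.sum_div]
  -- exchange
  have h3 : cnt (fun x : (Fin B → Bool × Fin N → R) × (Bool × Fin N → R) =>
        0 < f (asm ρ k (fun i => ρ (x.2 i)) x.1)) =
      cnt (fun r : Fin B → Bool × Fin N → R => 0 < f (noIn ρ (k + 1) r)) *
        Fintype.card (Bool × Fin N → R) := by
    let e : (Fin B → Bool × Fin N → R) × (Bool × Fin N → R) ≃
        (Fin B → Bool × Fin N → R) × (Bool × Fin N → R) :=
      { toFun := fun x => (Function.update x.1 k x.2, x.1 k)
        invFun := fun x => (Function.update x.1 k x.2, x.1 k)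
        left_inv := fun x => by simp
        right_inv := fun x => by simp }
    rw [← cnt_fst, ← cnt_equiv e (fun x : (Fin B → Bool × Fin N → R) × (Bool × Fin N → R) =>
      0 < f (noIn ρ (k + 1) x.1))]
    congr 1
    funext x
    show (0 < f (asm ρ k (fun i => ρ (x.2 i)) x.1)) =
      (0 < f (noIn ρ (k + 1) (Function.update x.1 k x.2)))
    rw [← asm_succ ρ k, asm_update, Function.update_self]
  unfold pY pN
  rw [div_le_iff₀ (mul_pos hRs hP)]
  refine h2.trans (le_of_eq ?_)
  rw [h3]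
  push_cast
  field_simp

/-- The sum over the chain for a small circuit. -/
theorem chain_circ (hξ : Dom ρ ξ lam eta) (hυ : Dom ρ υ lam eta) (hlam : 0 < lam) (heta : 0 ≤ eta)
    (hτ : 0 < τ) (hK : τ / lam ≤ K) (hK1 : 1 ≤ K) {s m : ℕ} {S : Set ((Bool × Fin n → V) → ℝ)}
    (hS : Circ (Leaf (Bool × Fin n) V) s m S) {f : (Bool × Fin n → V) → ℝ} (hf : f ∈ S) :
    ∑ k : Fin B, (pY N B ρ ξ υ k (fun z => 0 < f z) - pN N B ρ k (fun z => 0 < f z)) ≤
      1 + B * (K / N + s * K ^ 2 / (N : ℝ) ^ 2 + (s + m) * (2 * eta + Real.exp (-τ))) := by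
  set adv : ℝ := K / N + s * K ^ 2 / (N : ℝ) ^ 2 + (s + m) * (2 * eta + Real.exp (-τ)) with hadv
  have h1 : ∀ k : Fin B, pY N B ρ ξ υ k (fun z => 0 < f z) - pN N B ρ k (fun z => 0 < f z) ≤
      (pN N B ρ (k + 1) (fun z => 0 < f z) - pN N B ρ k (fun z => 0 < f z)) + adv := by
    intro k
    have := pY_le (N := N) hξ hυ hlam heta hτ hK hK1 hS hf k
    linarith
  refine (Finset.sum_le_sum fun k _ => h1 k).trans ?_
  rw [Finset.sum_add_distrib, Finset.sum_const, Finset.card_univ, Fintype.card_fin,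
    nsmul_eq_mul]
  have h2 : ∑ k : Fin B, (pN N B ρ (k + 1) (fun z => 0 < f z) -
      pN N B ρ k (fun z => 0 < f z)) = pN N B ρ B (fun z => 0 < f z) -
      pN N B ρ 0 (fun z => 0 < f z) := by
    rw [Fin.sum_univ_eq_sum_range (fun k => pN N B ρ (k + 1) (fun z => 0 < f z) -
      pN N B ρ k (fun z => 0 < f z)) B]
    exact Finset.sum_range_sub (fun k => pN N B ρ k (fun z => 0 < f z)) B
  rw [h2]
  have h3 := pN_le_one (N := N) (B := B) (ρ := ρ) B (fun z => 0 < f z)
  have h4 := pN_nonneg (N := N) (B := B) (ρ := ρ) 0 (fun z => 0 < f z)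
  linarith

theorem pN_le_pY {Q : (Bool × Fin n → V) → Prop} (hQ : ∀ x y, x ≤ y → Q x → Q y) (k : ℕ) :
    pN N B ρ k Q ≤ pY N B ρ ξ υ k Q := by
  have hP : (0:ℝ) < Fintype.card (Fin N × Fin N × W) := by exact_mod_cast Fintype.card_pos
  have hRs : (0:ℝ) < Fintype.card (Fin B → Bool × Fin N → R) := by
    exact_mod_cast Fintype.card_pos
  unfold pN pY
  rw [div_le_div_iff₀ hRs (mul_pos hRs hP)]
  have h1 : cnt (fun r : Fin B → Bool × Fin N → R => Q (noIn ρ k r)) *
      Fintype.card (Fin N × Fin N × W) ≤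
      cnt (fun x : (Fin B → Bool × Fin N → R) × (Fin N × Fin N × W) =>
        Q (asm ρ k (posIn ξ υ x.2) x.1)) := by
    rw [← cnt_fst]
    exact cnt_le_of fun x hx => hQ _ _ (noIn_le_asm ρ k _ _) hx
  have h2 : (cnt (fun r : Fin B → Bool × Fin N → R => Q (noIn ρ k r)) : ℝ) *
      Fintype.card (Fin N × Fin N × W) ≤
      cnt (fun x : (Fin B → Bool × Fin N → R) × (Fin N × Fin N × W) =>
        Q (asm ρ k (posIn ξ υ x.2) x.1)) := by exact_mod_cast h1
  nlinarith

theorem pN_mono {Q Q' : (Bool × Fin n → V) → Prop} (h : ∀ z, Q z → Q' z) (k : ℕ) :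
    pN N B ρ k Q ≤ pN N B ρ k Q' := by
  unfold pN
  gcongr
  exact cnt_le_of fun x hx => h _ hx

theorem cnt_split {α : Type} [Fintype α] (p q : α → Prop) :
    cnt p = cnt (fun x => p x ∧ q x) + cnt (fun x => p x ∧ ¬ q x) := by
  classical
  rw [cnt_eq, cnt_eq, cnt_eq, ← Finset.filter_filter, ← Finset.filter_filter]
  exact (Finset.card_filter_add_card_filter_not _).symm

omit [Nonempty R] in
theorem pN_split (Q Q' : (Bool × Fin n → V) → Prop) (k : ℕ) :
    pN N B ρ k Q = pN N B ρ k (fun z => Q z ∧ Q' z) + pN N B ρ k (fun z => Q z ∧ ¬ Q' z) := by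
  unfold pN
  rw [cnt_split _ (fun r => Q' (noIn ρ k r))]
  push_cast
  rw [add_div]

omit [Nonempty R] [Nonempty W] in
theorem pY_split (Q Q' : (Bool × Fin n → V) → Prop) (k : ℕ) :
    pY N B ρ ξ υ k Q = pY N B ρ ξ υ k (fun z => Q z ∧ Q' z) +
      pY N B ρ ξ υ k (fun z => Q z ∧ ¬ Q' z) := by
  unfold pY
  rw [cnt_split _ (fun x => Q' (asm ρ k (posIn ξ υ x.2) x.1))]
  push_cast
  rw [add_div]

/-- The sum over the chain for a program. -/
theorem chain_dec (hξ : Dom ρ ξ lam eta) (hυ : Dom ρ υ lam eta) (hlam : 0 < lam) (heta : 0 ≤ eta)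
    (hτ : 0 < τ) (hK : τ / lam ≤ K) (hK1 : 1 ≤ K) {s m l : ℕ}
    {S : Set ((Bool × Fin n → V) → ℝ)} {F : (Bool × Fin n → V) → Bool} (hF : Dec S s m l F) :
    ∀ (a b : ℕ) (S' : Set ((Bool × Fin n → V) → ℝ)), S ⊆ S' →
      Circ (Leaf (Bool × Fin n) V) a b S' → ∀ P ∈ S', ∀ M : (Bool × Fin n → V) → ℝ,
      Monotone M →
      ∑ k : Fin B, (pY N B ρ ξ υ k (fun z => (F z = true ∧ 0 < P z) ∧ ¬ 0 < M z) -
        pN N B ρ k (fun z => (F z = true ∧ 0 < P z) ∧ ¬ 0 < M z)) ≤
      l * (1 + B * (K / N + ((a + s : ℕ) : ℝ) * K ^ 2 / (N : ℝ) ^ 2 +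
        (((a + s : ℕ) : ℝ) + ((b + m : ℕ) : ℝ)) * (2 * eta + Real.exp (-τ)))) := by
  have hK0 : 0 ≤ K := by linarith
  have hexp := Real.exp_pos (-τ)
  -- monotonicity of the bound
  have hbd : ∀ a a' b b' : ℕ, a ≤ a' → b ≤ b' →
      (1 + B * (K / N + (a : ℝ) * K ^ 2 / (N : ℝ) ^ 2 +
        ((a : ℝ) + (b : ℝ)) * (2 * eta + Real.exp (-τ)))) ≤
      (1 + B * (K / N + (a' : ℝ) * K ^ 2 / (N : ℝ) ^ 2 +
        ((a' : ℝ) + (b' : ℝ)) * (2 * eta + Real.exp (-τ)))) := by
    intro a a' b b' ha hb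
    have ha' : (a : ℝ) ≤ a' := by exact_mod_cast ha
    have hb' : (b : ℝ) ≤ b' := by exact_mod_cast hb
    gcongr
  induction hF with
  | @halt S s m l v hl =>
    intro a b S' hSS' hS' P hP M hM
    cases v with
    | true =>
      have h1 := chain_circ (N := N) (B := B) hξ hυ hlam heta hτ hK hK1 hS' hP
      have h2 : ∀ k : Fin B, pY N B ρ ξ υ k (fun z => (true = true ∧ 0 < P z) ∧ ¬ 0 < M z) -
          pN N B ρ k (fun z => (true = true ∧ 0 < P z) ∧ ¬ 0 < M z) ≤
          pY N B ρ ξ υ k (fun z => 0 < P z) - pN N B ρ k (fun z => 0 < P z) := by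
        intro k
        have e1 := pY_split (N := N) (B := B) (ρ := ρ) (ξ := ξ) (υ := υ) (fun z => 0 < P z)
          (fun z => 0 < M z) k
        have e2 := pN_split (N := N) (B := B) (ρ := ρ) (fun z => 0 < P z) (fun z => 0 < M z) k
        have e3 := pN_le_pY (N := N) (B := B) (ρ := ρ) (ξ := ξ) (υ := υ)
          (Q := fun z => 0 < P z ∧ 0 < M z) (fun x y hxy hx =>
            ⟨hx.1.trans_le (Circ.mono leaf_mono hS' _ hP hxy), hx.2.trans_le (hM hxy)⟩) k
        simp only [true_and]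
        linarith
      refine (Finset.sum_le_sum fun k _ => h2 k).trans (h1.trans ?_)
      have h3 := hbd a (a + s) b (b + m) (Nat.le_add_right _ _) (Nat.le_add_right _ _)
      refine h3.trans ?_
      have hl' : (1:ℝ) ≤ l := by exact_mod_cast hl
      have h4 : 0 ≤ (1 + B * (K / N + ((a + s : ℕ) : ℝ) * K ^ 2 / (N : ℝ) ^ 2 +
        (((a + s : ℕ) : ℝ) + ((b + m : ℕ) : ℝ)) * (2 * eta + Real.exp (-τ)))) := by positivity
      nlinarith
    | false =>
      have h2 : ∀ k : Fin B, pY N B ρ ξ υ k (fun z => (false = true ∧ 0 < P z) ∧ ¬ 0 < M z) -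
          pN N B ρ k (fun z => (false = true ∧ 0 < P z) ∧ ¬ 0 < M z) ≤ 0 := by
        intro k
        have e1 : pY N B ρ ξ υ k (fun z => (false = true ∧ 0 < P z) ∧ ¬ 0 < M z) = 0 := by
          unfold pY
          rw [cnt_eq_zero fun x hx => by simp at hx]
          simp
        rw [e1]
        have := pN_nonneg (N := N) (B := B) (ρ := ρ) k
          (fun z => (false = true ∧ 0 < P z) ∧ ¬ 0 < M z)
        linarith
      refine (Finset.sum_nonpos fun k _ => h2 k).trans ?_
      positivity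
  | @gate S s m l F f g φ hφ hf hg h ih =>
    intro a b S' hSS' hS' P hP M hM
    have h1 := ih (a + 1) b (insert (fun z => φ (f z) (g z)) S')
      (Set.insert_subset_insert hSS') (Circ.gate φ hφ hS' (hSS' hf) (hSS' hg)) P
      (Set.mem_insert_of_mem _ hP) M hM
    have e : a + 1 + s = a + (s + 1) := by ring
    rwa [e] at h1
  | @sup S s m l F k f hf h ih =>
    intro a b S' hSS' hS' P hP M hM
    have h1 := ih a (b + 1) (insert (fun z => ⨆ t, f t z) S')
      (Set.insert_subset_insert hSS') (Circ.sup k f hS' fun t => hSS' (hf t)) P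
      (Set.mem_insert_of_mem _ hP) M hM
    have e : b + 1 + m = b + (m + 1) := by ring
    rwa [e] at h1
  | @test S s m l l' F F' f hf h h' ih ih' =>
    intro a b S' hSS' hS' P hP M hM
    have h1 := ih (a + 1) b (insert (fun z => min (P z) (f z)) S')
      (hSS'.trans (Set.subset_insert _ _)) (Circ.gate min
        (fun a a' b b' ha hb => min_le_min ha hb) hS' hP (hSS' hf)) (fun z => min (P z) (f z))
      (Set.mem_insert _ _) M hM
    have h2 := ih' a b S' hSS' hS' P hP (fun z => max (M z) (f z))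
      (fun x y hxy => max_le_max (hM hxy) (Circ.mono leaf_mono hS' _ (hSS' hf) hxy))
    have h3 : ∀ k : Fin B,
        pY N B ρ ξ υ k (fun z => ((if 0 < f z then F z else F' z) = true ∧ 0 < P z) ∧
          ¬ 0 < M z) =
        pY N B ρ ξ υ k (fun z => (F z = true ∧ 0 < min (P z) (f z)) ∧ ¬ 0 < M z) +
        pY N B ρ ξ υ k (fun z => (F' z = true ∧ 0 < P z) ∧ ¬ 0 < max (M z) (f z)) := by
      intro k
      rw [pY_split _ (fun z => 0 < f z)]
      congr 2
      · funext z
        by_cases hz : 0 < f z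
        · simp [hz]
        · simp [hz]
      · funext z
        by_cases hz : 0 < f z
        · simp [hz]
        · simp [hz]
    have h4 : ∀ k : Fin B,
        pN N B ρ k (fun z => ((if 0 < f z then F z else F' z) = true ∧ 0 < P z) ∧
          ¬ 0 < M z) =
        pN N B ρ k (fun z => (F z = true ∧ 0 < min (P z) (f z)) ∧ ¬ 0 < M z) +
        pN N B ρ k (fun z => (F' z = true ∧ 0 < P z) ∧ ¬ 0 < max (M z) (f z)) := by
      intro k
      rw [pN_split _ (fun z => 0 < f z)]
      congr 2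
      · funext z
        by_cases hz : 0 < f z
        · simp [hz]
        · simp [hz]
      · funext z
        by_cases hz : 0 < f z
        · simp [hz]
        · simp [hz]
    have h5 : ∑ k : Fin B, (pY N B ρ ξ υ k
        (fun z => ((if 0 < f z then F z else F' z) = true ∧ 0 < P z) ∧ ¬ 0 < M z) -
        pN N B ρ k (fun z => ((if 0 < f z then F z else F' z) = true ∧ 0 < P z) ∧ ¬ 0 < M z)) =
        ∑ k : Fin B, (pY N B ρ ξ υ k
          (fun z => (F z = true ∧ 0 < min (P z) (f z)) ∧ ¬ 0 < M z) -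
          pN N B ρ k (fun z => (F z = true ∧ 0 < min (P z) (f z)) ∧ ¬ 0 < M z)) +
        ∑ k : Fin B, (pY N B ρ ξ υ k
          (fun z => (F' z = true ∧ 0 < P z) ∧ ¬ 0 < max (M z) (f z)) -
          pN N B ρ k (fun z => (F' z = true ∧ 0 < P z) ∧ ¬ 0 < max (M z) (f z))) := by
      rw [← Finset.sum_add_distrib]
      refine Finset.sum_congr rfl fun k _ => ?_
      rw [h3 k, h4 k]
      ring
    rw [h5]
    have e : a + 1 + s = a + (s + 1) := by ring
    rw [e] at h1
    have h6 := hbd (a + s) (a + (s + 1)) (b + m) (b + m) (by omega) le_rfl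
    have h7 : (0:ℝ) ≤ l' := Nat.cast_nonneg _
    have h8 := mul_le_mul_of_nonneg_left h6 h7
    push_cast at h1 h2 h8 ⊢
    linarith

end chain

end Pool.Agent.V8H43.OV
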