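import Mathlib
import Pool.Agent.V8H43.OV.Hyb
import Pool.Agent.V8H43.OV.Cube

/-!
# Instances of Orthogonal Vectors
-/

set_option autoImplicit false

open Finset

namespace Pool.Agent.V8H43.OV

/-- The instances: `x (false, i)` are the vectors of the first set, `x (true, j)` are the vectors of
the second set. -/
abbrev Inst (n d : ℕ) : Type := Bool × Fin n → Fin d → Bool

/-- The vectors of each of the two sets are distinct. -/
def Valid {n d : ℕ} (x : Inst n d) : Prop := ∀ b, Function.Injective fun i => x (b, i)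

/-- Some vector of the first set is orthogonal to some vector of the second set. -/
def Orth {n d : ℕ} (x : Inst n d) : Prop :=
  ∃ i j, ∀ l, ¬ (x (false, i) l = true ∧ x (true, j) l = true)

/-- The constants, and the nonincreasing real functions of a single vector. -/
def Items (n d : ℕ) : Set (Inst n d → ℝ) :=
  {f | (∃ c : ℝ, f = fun _ => c) ∨
    ∃ (i : Bool × Fin n) (u : (Fin d → Bool) → ℝ), Antitone u ∧ f = fun x => u (x i)}

section mk

variable {n d D L : ℕ}

/-- A vector with given random part, and a tag. -/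
def vec (d D L : ℕ) (i : Bool × Fin n) (v : Fin D → Bool) (l : Fin d) : Bool :=
  if h : l.val < D then !(v ⟨l.val, h⟩)
  else if l.val < D + L then (!i.1 && i.2.val.testBit (l.val - D))
  else if l.val < D + 2 * L then (i.1 && i.2.val.testBit (l.val - D - L))
  else false

/-- The instance with given random parts. -/
def mk (d D L : ℕ) (z : Bool × Fin n → Fin D → Bool) : Inst n d := fun i => vec d D L i (z i)

theorem vec_anti (i : Bool × Fin n) {v w : Fin D → Bool} (h : v ≤ w) :
    vec d D L i w ≤ vec d D L i v := by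
  intro l
  unfold vec
  split_ifs with h1
  · have h2 : ∀ a b : Bool, a ≤ b → (!b) ≤ (!a) := by decide
    exact h2 _ _ (h ⟨l.val, h1⟩)
  · exact le_rfl
  · exact le_rfl
  · exact le_rfl

theorem items_mk : ∀ f ∈ Items n d, (fun z : Bool × Fin n → Fin D → Bool => f (mk d D L z)) ∈
    Leaf (Bool × Fin n) (Fin D → Bool) := by
  rintro f (⟨c, rfl⟩ | ⟨i, u, hu, rfl⟩)
  · exact Or.inl ⟨c, rfl⟩
  · exact Or.inr ⟨i, fun v => u (vec d D L i v), fun v w hvw => hu (vec_anti i hvw), rfl⟩

theorem valid_mk (hn : n ≤ 2 ^ L) (hd : D + 2 * L ≤ d) (z : Bool × Fin n → Fin D → Bool) :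
    Valid (mk d D L z) := by
  intro b i j hij
  by_contra hne
  have h1 : i.val ≠ j.val := fun h => hne (Fin.ext h)
  obtain ⟨k, hk⟩ : ∃ k, i.val.testBit k ≠ j.val.testBit k := by
    by_contra hcon
    push Not at hcon
    exact h1 (Nat.eq_of_testBit_eq hcon)
  have hkL : k < L := by
    by_contra hcon
    push Not at hcon
    have h2 : ∀ a : Fin n, a.val.testBit k = false := fun a => by
      refine Nat.testBit_lt_two_pow (lt_of_lt_of_le a.2 (hn.trans ?_))
      exact Nat.pow_le_pow_right (by norm_num) hcon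
    exact hk (by rw [h2, h2])
  cases b with
  | false =>
    have h3 : D + k < d := by omega
    have h4 := congrFun hij ⟨D + k, h3⟩
    have e1 : ¬ D + k < D := by omega
    have e2 : D + k < D + L := by omega
    simp only [mk, vec, e1, e2, dite_false, if_true, Bool.not_false, Bool.true_and,
      Nat.add_sub_cancel_left] at h4
    exact hk h4
  | true =>
    have h3 : D + L + k < d := by omega
    have h4 := congrFun hij ⟨D + L + k, h3⟩
    have e1 : ¬ D + L + k < D := by omega
    have e2 : ¬ D + L + k < D + L := by omega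
    have e3 : D + L + k < D + 2 * L := by omega
    have e4 : D + L + k - D - L = k := by omega
    simp only [mk, vec, e1, e2, e3, e4, dite_false, if_false, if_true, Bool.true_and] at h4
    exact hk h4

theorem orth_mk (hd : D + 2 * L ≤ d) (z : Bool × Fin n → Fin D → Bool) :
    Orth (mk d D L z) ↔ ∃ i j, ∀ l, z (false, i) l = true ∨ z (true, j) l = true := by
  constructor
  · rintro ⟨i, j, h⟩
    refine ⟨i, j, fun l => ?_⟩
    have h1 := h ⟨l.val, by omega⟩
    simp only [mk, vec, l.2, dite_true, Bool.not_eq_true', not_and, Bool.not_eq_false] at h1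
    by_contra hcon
    rw [not_or, Bool.not_eq_true, Bool.not_eq_true] at hcon
    exact Bool.false_ne_true (hcon.2.symm.trans (h1 hcon.1))
  · rintro ⟨i, j, h⟩
    refine ⟨i, j, fun l => ?_⟩
    rintro ⟨h1, h2⟩
    by_cases hl : l.val < D
    · simp only [mk, vec, hl, dite_true, Bool.not_eq_true'] at h1 h2
      rcases h ⟨l.val, hl⟩ with h3 | h3
      · rw [h1] at h3
        exact Bool.false_ne_true h3
      · rw [h2] at h3
        exact Bool.false_ne_true h3
    · by_cases hl2 : l.val < D + L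
      · simp [mk, vec, hl, hl2] at h2
      · by_cases hl3 : l.val < D + 2 * L
        · simp [mk, vec, hl, hl2, hl3] at h1
        · simp [mk, vec, hl, hl2, hl3] at h1

end mk

section sample

variable {n d D L q t N B : ℕ} [NeZero q] [NeZero N]

/-- All pairs of random vectors have a common coordinate. -/
def Good (r : Fin B → Bool × Fin N → Fin D → Fin q) : Prop :=
  ∀ a b i j, ∃ l, r a (false, i) l = 0 ∧ r b (true, j) l = 0

theorem cnt_ex_le {α β : Type} [Fintype α] [Fintype β] (p : β → α → Prop) :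
    cnt (fun x => ∃ b, p b x) ≤ ∑ b, cnt (p b) := by
  classical
  rw [cnt_eq]
  have h1 : (univ.filter fun x => ∃ b, p b x) = univ.biUnion fun b => univ.filter (p b) := by
    ext x
    simp
  rw [h1]
  refine Finset.card_biUnion_le.trans (Finset.sum_le_sum fun b _ => ?_)
  rw [cnt_eq]

omit [NeZero N] in
theorem cnt_bad : (cnt (fun r : Fin B → Bool × Fin N → Fin D → Fin q => ¬ Good r) : ℝ) ≤
    ((B : ℝ) * N) ^ 2 * Real.exp (-(D / (q:ℝ) ^ 2)) *
      Fintype.card (Fin B → Bool × Fin N → Fin D → Fin q) := by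
  classical
  have hR : (0:ℝ) < Fintype.card ((Fin D → Fin q) × (Fin D → Fin q)) := by
    exact_mod_cast Fintype.card_pos
  have h1 : cnt (fun r : Fin B → Bool × Fin N → Fin D → Fin q => ¬ Good r) ≤
      ∑ x : (Fin B × Fin B) × (Fin N × Fin N), cnt (fun r : Fin B → Bool × Fin N → Fin D → Fin q =>
        ∀ l, ¬ (r x.1.1 (false, x.2.1) l = 0 ∧ r x.1.2 (true, x.2.2) l = 0)) := by
    refine le_trans (cnt_le_of fun r hr => ?_) (cnt_ex_le _)
    unfold Good at hr
    push Not at hr
    obtain ⟨a, b, i, j, h⟩ := hr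
    exact ⟨((a, b), (i, j)), fun l hl => h l hl.1 hl.2⟩
  have h2 : ∀ x : (Fin B × Fin B) × (Fin N × Fin N),
      (cnt (fun r : Fin B → Bool × Fin N → Fin D → Fin q =>
        ∀ l, ¬ (r x.1.1 (false, x.2.1) l = 0 ∧ r x.1.2 (true, x.2.2) l = 0)) : ℝ) ≤
      Real.exp (-(D / (q:ℝ) ^ 2)) * Fintype.card (Fin B → Bool × Fin N → Fin D → Fin q) := by
    rintro ⟨⟨a, b⟩, i, j⟩
    let e : (Fin B × (Bool × Fin N) → Fin D → Fin q) ≃
        (Fin B → Bool × Fin N → Fin D → Fin q) := Equiv.curry _ _ _
    have h3 := cnt_equiv e (fun r : Fin B → Bool × Fin N → Fin D → Fin q =>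
        ∀ l, ¬ (r a (false, i) l = 0 ∧ r b (true, j) l = 0))
    have h4 := cnt_two (I := Fin B × (Bool × Fin N)) (R := Fin D → Fin q)
      (i := (a, (false, i))) (j := (b, (true, j))) (by simp)
      (fun p => ∀ l, ¬ (p.1 l = 0 ∧ p.2 l = 0))
    have h5 : Fintype.card (Fin B × (Bool × Fin N) → Fin D → Fin q) =
        Fintype.card (Fin B → Bool × Fin N → Fin D → Fin q) := Fintype.card_congr e
    have h6 : cnt (fun f : Fin B × (Bool × Fin N) → Fin D → Fin q =>
        ∀ l, ¬ (f (a, (false, i)) l = 0 ∧ f (b, (true, j)) l = 0)) =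
        cnt (fun r : Fin B → Bool × Fin N → Fin D → Fin q =>
        ∀ l, ¬ (r a (false, i) l = 0 ∧ r b (true, j) l = 0)) := h3
    rw [← h6, ← h5]
    have h7 := cnt_pair (D := D) (q := q)
    have h8 : (cnt (fun f : Fin B × (Bool × Fin N) → Fin D → Fin q =>
        ∀ l, ¬ (f (a, (false, i)) l = 0 ∧ f (b, (true, j)) l = 0)) : ℝ) *
        Fintype.card ((Fin D → Fin q) × (Fin D → Fin q)) ≤
        (Real.exp (-(D / (q:ℝ) ^ 2)) * Fintype.card (Fin B × (Bool × Fin N) → Fin D → Fin q)) *
          Fintype.card ((Fin D → Fin q) × (Fin D → Fin q)) := by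
      refine (le_of_eq h4).trans ?_
      have h9 := mul_le_mul_of_nonneg_right h7
        (Nat.cast_nonneg (α := ℝ) (Fintype.card (Fin B × (Bool × Fin N) → Fin D → Fin q)))
      refine h9.trans (le_of_eq ?_)
      ring
    exact le_of_mul_le_mul_right h8 hR
  have h3 : (cnt (fun r : Fin B → Bool × Fin N → Fin D → Fin q => ¬ Good r) : ℝ) ≤
      ∑ x : (Fin B × Fin B) × (Fin N × Fin N), (cnt (fun r : Fin B → Bool × Fin N → Fin D → Fin q =>
        ∀ l, ¬ (r x.1.1 (false, x.2.1) l = 0 ∧ r x.1.2 (true, x.2.2) l = 0)) : ℝ) := by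
    exact_mod_cast h1
  refine h3.trans ((Finset.sum_le_sum fun x _ => h2 x).trans (le_of_eq ?_))
  rw [Finset.sum_const, Finset.card_univ, nsmul_eq_mul]
  simp only [Fintype.card_prod, Fintype.card_fin]
  push_cast
  ring

theorem noIn_le (hB : 0 < B) (k : ℕ) (r : Fin B → Bool × Fin N → Fin D → Fin q) (b : Bool)
    (x : Fin n) : ∃ a i, noIn rho k r (b, x) ≤ rho (r a (b, i)) := by
  by_cases h : x.val / N < B
  · refine ⟨⟨x.val / N, h⟩, ⟨x.val % N, Nat.mod_lt _ (Nat.pos_of_ne_zero (NeZero.ne N))⟩, ?_⟩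
    unfold noIn asm
    rw [dif_pos h]
    split_ifs
    · exact le_rfl
    · exact bot_le
    · exact bot_le
  · refine ⟨⟨0, hB⟩, 0, ?_⟩
    unfold noIn asm
    rw [dif_neg h]
    exact bot_le

theorem not_orth (hB : 0 < B) (hd : D + 2 * L ≤ d) (k : ℕ)
    {r : Fin B → Bool × Fin N → Fin D → Fin q} (hr : Good r) :
    ¬ Orth (mk (n := n) d D L (noIn rho k r)) := by
  rw [orth_mk hd]
  rintro ⟨x, y, h⟩
  obtain ⟨a, i, h1⟩ := noIn_le hB k r false x
  obtain ⟨b, j, h2⟩ := noIn_le hB k r true y
  obtain ⟨l, h3, h4⟩ := hr a b i j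
  rcases h l with h5 | h5
  · have h6 := h1 l
    rw [h5] at h6
    have h7 : rho (r a (false, i)) l = true := top_le_iff.1 h6
    simp [rho, h3] at h7
  · have h6 := h2 l
    rw [h5] at h6
    have h7 : rho (r b (true, j)) l = true := top_le_iff.1 h6
    simp [rho, h4] at h7

theorem orth_asm (hd : D + 2 * L ≤ d) (hBN : B * N ≤ n) (k : Fin B)
    (r : Fin B → Bool × Fin N → Fin D → Fin q) (p : Fin N × Fin N × (Fin D → Fin t → Fin q)) :
    Orth (mk (n := n) d D L (asm rho k (posIn xi ups p) r)) := by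
  rw [orth_mk hd]
  have hN : 0 < N := Nat.pos_of_ne_zero (NeZero.ne N)
  have hlt : ∀ i : Fin N, k.val * N + i.val < n := by
    intro i
    have h1 := k.2
    have h2 := i.2
    calc k.val * N + i.val < k.val * N + N := by omega
      _ = (k.val + 1) * N := by ring
      _ ≤ B * N := Nat.mul_le_mul_right _ h1
      _ ≤ n := hBN
  have hdiv : ∀ i : Fin N, (k.val * N + i.val) / N = k.val := by
    intro i
    rw [Nat.mul_comm, Nat.mul_add_div hN, Nat.div_eq_of_lt i.2, add_zero]
  have hmod : ∀ i : Fin N, (k.val * N + i.val) % N = i.val := by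
    intro i
    rw [Nat.mul_comm, Nat.mul_add_mod, Nat.mod_eq_of_lt i.2]
  have hval : ∀ (b : Bool) (i : Fin N), asm rho k (posIn xi ups p) r
      (b, (⟨k.val * N + i.val, hlt i⟩ : Fin n)) = posIn xi ups p (b, i) := by
    intro b i
    unfold asm
    simp only [hdiv, hmod, k.2, dite_true, lt_irrefl, if_false, if_true]
  refine ⟨⟨k.val * N + p.1.val, hlt p.1⟩, ⟨k.val * N + p.2.1.val, hlt p.2.1⟩, fun l => ?_⟩
  rw [hval, hval]
  have e1 : posIn xi ups p (false, p.1) = xi p.2.2 := by simp [posIn]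
  have e2 : posIn xi ups p (true, p.2.1) = ups p.2.2 := by simp [posIn]
  rw [e1, e2]
  unfold ups
  cases xi p.2.2 l <;> simp

end sample

end Pool.Agent.V8H43.OV
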