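import Mathlib
import Pool.Agent.V8H43.OV.Inst

/-!
# Orthogonal Vectors: the final form
-/

set_option autoImplicit false

open Finset

namespace Pool.Agent.V8H43.OV

/-- The acceptance probability for a uniformly random element of a family. -/
noncomputable def acc {Λ X : Type} [Fintype Λ] (f : Λ → X) (F : X → Bool) : ℝ :=
  (cnt (fun a => F (f a) = true) : ℝ) / Fintype.card Λ

section param

variable {n d D L q t N B : ℕ} [NeZero q] [NeZero N]

open scoped Classical in
/-- The hard distributions, with explicit parameters. -/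
theorem hard (hq : 2 * t ≤ q) (hn : n ≤ 2 ^ L) (hd : D + 2 * L ≤ d) (hD : 0 < D) (hB : 0 < B)
    (hBN : B * N ≤ n) {lam τ K : ℝ} (hlam : 0 < lam) (hτ : 0 < τ) (hK : τ / lam ≤ K)
    (hK1 : 1 ≤ K) :
    ∃ (Λ : Type) (_ : Fintype Λ) (_ : Nonempty Λ) (yes no : Λ → Inst n d),
      (∀ a, Valid (yes a) ∧ Orth (yes a)) ∧ (∀ a, Valid (no a) ∧ ¬ Orth (no a)) ∧
      ∀ (s m l : ℕ) (F : Inst n d → Bool), Dec (Items n d) s m l F →
        acc yes F ≤ acc no F + ((l : ℝ) / B + l * (K / N + s * K ^ 2 / (N : ℝ) ^ 2 +
          (s + m) * (2 * lam ^ t + Real.exp (-τ))) +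
          ((B : ℝ) * N) ^ 2 * Real.exp (-(D / (q:ℝ) ^ 2))) := by
  let R : Type := Fin D → Fin q
  let W : Type := Fin D → Fin t → Fin q
  let Rs : Type := Fin B → Bool × Fin N → R
  let P : Type := Fin N × Fin N × W
  let Λ : Type := Fin B × (Rs × P)
  have hBne : NeZero B := ⟨hB.ne'⟩
  let yes : Λ → Inst n d := fun a => mk d D L (asm rho a.1 (posIn xi ups a.2.2) a.2.1)
  let no : Λ → Inst n d := fun a =>
    if Good a.2.1 then mk d D L (noIn rho a.1 a.2.1) else mk d D L fun _ _ => false
  refine ⟨Λ, inferInstance, inferInstance, yes, no, fun a => ⟨valid_mk hn hd _,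
    orth_asm hd hBN _ _ _⟩, fun a => ?_, ?_⟩
  · show Valid (if Good a.2.1 then mk d D L (noIn rho a.1 a.2.1) else mk d D L fun _ _ => false) ∧
      ¬ Orth (if Good a.2.1 then mk d D L (noIn rho a.1 a.2.1) else mk d D L fun _ _ => false)
    split_ifs with h
    · exact ⟨valid_mk hn hd _, not_orth hB hd _ h⟩
    · refine ⟨valid_mk hn hd _, ?_⟩
      rw [orth_mk hd]
      rintro ⟨i, j, h1⟩
      simpa using h1 ⟨0, hD⟩
  · intro s m l F hF
    have hRs : (0:ℝ) < Fintype.card Rs := by exact_mod_cast Fintype.card_pos
    have hP : (0:ℝ) < Fintype.card P := by exact_mod_cast Fintype.card_pos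
    have hBr : (0:ℝ) < B := by exact_mod_cast hB
    have hcard : (Fintype.card Λ : ℝ) = B * (Fintype.card Rs * Fintype.card P) := by
      simp only [Λ, Fintype.card_prod, Fintype.card_fin]
      push_cast
      ring
    set F' : (Bool × Fin n → Fin D → Bool) → Bool := fun z => F (mk d D L z) with hF'
    have hF2 : Dec (Leaf (Bool × Fin n) (Fin D → Bool)) s m l F' :=
      hF.comp (mk d D L) _ items_mk
    have h1 := chain_dec (N := N) (B := B) (W := W) (dom_xi (t := t)) (dom_ups hq) hlam
      (pow_nonneg hlam.le t) hτ hK hK1 hF2 0 0 _ subset_rfl Circ.zero (fun _ => 1)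
      (Or.inl ⟨1, rfl⟩) (fun _ => 0) (fun _ _ _ => le_rfl)
    simp only [zero_lt_one, and_true, lt_irrefl, not_false_eq_true, zero_add] at h1
    -- acceptance probabilities
    have hyes : acc yes F = (∑ k : Fin B, pY N B (rho (D := D) (q := q)) (xi (t := t) (q := q)) (ups (t := t) (q := q)) k (fun z => F' z = true)) / B := by
      unfold acc
      rw [hcard, cnt_sum]
      push_cast
      rw [Finset.sum_div, Finset.sum_div]
      refine Finset.sum_congr rfl fun k _ => ?_
      unfold pY
      rw [div_div, mul_comm (Fintype.card Rs * Fintype.card P : ℝ) (B : ℝ)]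
    have hno : (∑ k : Fin B, pN N B (rho (D := D) (q := q)) k (fun z => F' z = true)) / B ≤
        acc no F + ((B : ℝ) * N) ^ 2 * Real.exp (-(D / (q:ℝ) ^ 2)) := by
      have e1 : acc no F + ((B : ℝ) * N) ^ 2 * Real.exp (-(D / (q:ℝ) ^ 2)) ≥
          (∑ k : Fin B, pN N B (rho (D := D) (q := q)) k (fun z => F' z = true)) / B := by
        unfold acc
        rw [hcard, cnt_sum]
        push_cast
        rw [ge_iff_le, div_le_iff₀ hBr]
        have e2 : ∀ k : Fin B, pN N B (rho (D := D) (q := q)) k (fun z => F' z = true) ≤
            (cnt (fun b : Rs × P => F (no (k, b)) = true) : ℝ) /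
              (Fintype.card Rs * Fintype.card P) +
            ((B : ℝ) * N) ^ 2 * Real.exp (-(D / (q:ℝ) ^ 2)) := by
          intro k
          have e3 : cnt (fun r : Rs => F' (noIn rho k r) = true) * Fintype.card P ≤
              cnt (fun b : Rs × P => F (no (k, b)) = true) +
              cnt (fun r : Rs => ¬ Good r) * Fintype.card P := by
            rw [← cnt_fst, ← cnt_fst]
            refine le_trans (cnt_le_of fun b hb => ?_) (cnt_or_le _ _)
            by_cases hg : Good b.1
            · left
              show F (if Good b.1 then mk d D L (noIn rho k b.1) else mk d D L fun _ _ => false) =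
                true
              rw [if_pos hg]
              exact hb
            · right
              exact hg
          have e4 : (cnt (fun r : Rs => F' (noIn rho k r) = true) : ℝ) * Fintype.card P ≤
              cnt (fun b : Rs × P => F (no (k, b)) = true) +
              cnt (fun r : Rs => ¬ Good r) * Fintype.card P := by exact_mod_cast e3
          have e5 := cnt_bad (D := D) (q := q) (N := N) (B := B)
          unfold pN
          rw [div_le_iff₀ hRs]
          have e6 : ((cnt (fun b : Rs × P => F (no (k, b)) = true) : ℝ) /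
              (Fintype.card Rs * Fintype.card P) +
              ((B : ℝ) * N) ^ 2 * Real.exp (-(D / (q:ℝ) ^ 2))) * Fintype.card Rs =
              (cnt (fun b : Rs × P => F (no (k, b)) = true) : ℝ) / Fintype.card P +
              ((B : ℝ) * N) ^ 2 * Real.exp (-(D / (q:ℝ) ^ 2)) * Fintype.card Rs := by
            field_simp
          rw [e6]
          have e7 : (cnt (fun r : Rs => F' (noIn rho k r) = true) : ℝ) ≤
              (cnt (fun b : Rs × P => F (no (k, b)) = true) : ℝ) / Fintype.card P +
              cnt (fun r : Rs => ¬ Good r) := by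
            rw [← sub_le_iff_le_add, le_div_iff₀ hP]
            linarith
          linarith
        refine (Finset.sum_le_sum fun k _ => e2 k).trans (le_of_eq ?_)
        rw [Finset.sum_add_distrib, Finset.sum_const, Finset.card_univ, Fintype.card_fin,
          nsmul_eq_mul, ← Finset.sum_div]
        field_simp
      exact e1
    rw [Finset.sum_sub_distrib] at h1
    have h2 : (∑ k : Fin B, pY N B (rho (D := D) (q := q)) (xi (t := t) (q := q)) (ups (t := t) (q := q)) k (fun z => F' z = true)) / B ≤
        (∑ k : Fin B, pN N B (rho (D := D) (q := q)) k (fun z => F' z = true)) / B +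
        ((l : ℝ) / B + l * (K / N + s * K ^ 2 / (N : ℝ) ^ 2 +
          (s + m) * (2 * lam ^ t + Real.exp (-τ)))) := by
      have h3 : (∑ k : Fin B, pY N B (rho (D := D) (q := q)) (xi (t := t) (q := q)) (ups (t := t) (q := q)) k (fun z => F' z = true)) ≤
          (∑ k : Fin B, pN N B (rho (D := D) (q := q)) k (fun z => F' z = true)) +
          l * (1 + B * (K / N + s * K ^ 2 / (N : ℝ) ^ 2 +
            (s + m) * (2 * lam ^ t + Real.exp (-τ)))) := by linarith
      have h4 := div_le_div_of_nonneg_right h3 hBr.le
      refine h4.trans (le_of_eq ?_)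
      field_simp
    rw [hyes]
    linarith

end param

end Pool.Agent.V8H43.OV
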