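import Mathlib
import Pool.Agent.V8H43.OV.Fin

/-!
# Orthogonal Vectors: asymptotics
-/

set_option autoImplicit false

open Finset Filter Topology

namespace Pool.Agent.V8H43.OV

theorem eventually_exp {a b : ℝ} (ha : 0 < a) :
    ∀ᶠ n : ℕ in atTop, Real.exp (-(n:ℝ) ^ a) ≤ (n:ℝ) ^ (-b) := by
  have h1 := tendsto_rpow_mul_exp_neg_mul_atTop_nhds_zero (b / a) 1 zero_lt_one
  have h2 : Tendsto (fun n : ℕ => (n:ℝ) ^ a) atTop atTop :=
    (tendsto_rpow_atTop ha).comp tendsto_natCast_atTop_atTop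
  have h3 := h1.comp h2
  filter_upwards [h3.eventually_le_const (show (0:ℝ) < 1 by norm_num),
    eventually_gt_atTop 0] with n hn hn0
  have hx : (0:ℝ) < n := by exact_mod_cast hn0
  simp only [Function.comp_apply, neg_mul, one_mul] at hn
  rw [← Real.rpow_mul hx.le, mul_div_cancel₀ _ ha.ne'] at hn
  rw [Real.rpow_neg hx.le, ← one_div, le_div_iff₀ (Real.rpow_pos_of_pos hx _), mul_comm]
  exact hn

theorem eventually_rpow {a c : ℝ} (ha : 0 < a) : ∀ᶠ n : ℕ in atTop, c ≤ (n:ℝ) ^ a :=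
  ((tendsto_rpow_atTop ha).comp tendsto_natCast_atTop_atTop).eventually_ge_atTop c

theorem hard_asy (ε g T : ℝ) (hε : 0 < ε) (hg : 0 ≤ g) (hgε : 2 * g + ε ≤ 1) (hT : 0 ≤ T) :
    ∃ C a : ℝ, 0 < a ∧ ∃ n₀ : ℕ, ∀ n : ℕ, n₀ ≤ n → ∀ d : ℕ, C * Real.log n ≤ d →
      ∃ (Λ : Type) (_ : Fintype Λ) (_ : Nonempty Λ) (yes no : Λ → Inst n d),
      (∀ a, Valid (yes a) ∧ Orth (yes a)) ∧ (∀ a, Valid (no a) ∧ ¬ Orth (no a)) ∧
      ∀ (s m l : ℕ) (F : Inst n d → Bool), (s : ℝ) ≤ (n:ℝ) ^ (2 - 3 * g - ε) →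
        (m : ℝ) ≤ (n:ℝ) ^ T → (l : ℝ) ≤ (n:ℝ) ^ g → Dec (Items n d) s m l F →
        acc yes F ≤ acc no F + (n:ℝ) ^ (-a) := by
  set a0 : ℝ := ε / 8 with ha0
  have ha0' : 0 < a0 := by positivity
  set t : ℕ := ⌈(T + 4) / a0⌉₊ with ht
  have ht1 : (T + 4) / a0 ≤ t := Nat.le_ceil _
  have ht0 : 0 < t := by
    rw [ht, Nat.ceil_pos]
    positivity
  set q : ℕ := 2 * t with hq
  have hq0 : 0 < q := by omega
  have : NeZero q := ⟨hq0.ne'⟩
  have hqr : (0:ℝ) < q := by exact_mod_cast hq0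
  refine ⟨3 * (q:ℝ) ^ 2 + 8, a0 / 2, by positivity, ?_⟩
  have hev : ∀ᶠ n : ℕ in atTop, 3 ≤ n ∧ Real.exp (-(n:ℝ) ^ a0) ≤ (n:ℝ) ^ (-(T + 4)) ∧
      4 ≤ (n:ℝ) ^ (1 - g - a0) ∧ 28 ≤ (n:ℝ) ^ (a0 / 2) := by
    refine (eventually_ge_atTop 3).and ((eventually_exp ha0').and
      ((eventually_rpow ?_).and (eventually_rpow (by positivity))))
    have : a0 ≤ ε := by
      rw [ha0]
      linarith
    by_contra hcon
    push Not at hcon
    nlinarith
  obtain ⟨n₀, hn₀⟩ := eventually_atTop.1 hev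
  refine ⟨n₀, fun n hn d hd => ?_⟩
  obtain ⟨hn3, hexp, h4, h28⟩ := hn₀ n hn
  set x : ℝ := (n : ℝ) with hx
  have hx3 : (3:ℝ) ≤ x := by
    rw [hx]
    exact_mod_cast hn3
  have hx0 : 0 < x := by linarith
  have hx1 : 1 ≤ x := by linarith
  have hlog : 1 ≤ Real.log x := by
    rw [Real.le_log_iff_exp_le hx0]
    linarith [Real.exp_one_lt_d9]
  have pow_mono : ∀ {u v : ℝ}, u ≤ v → x ^ u ≤ x ^ v := fun h =>
    Real.rpow_le_rpow_of_exponent_le hx1 h
  have hsq : ∀ u : ℝ, (x ^ u) ^ 2 = x ^ (u + u) := fun u => by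
    rw [sq, ← Real.rpow_add hx0]
  -- parameters
  set B : ℕ := ⌈x ^ (g + a0)⌉₊ with hB
  have hB1 : x ^ (g + a0) ≤ B := Nat.le_ceil _
  have hpos1 : 1 ≤ x ^ (g + a0) := by
    have := pow_mono (u := 0) (v := g + a0) (by positivity)
    rwa [Real.rpow_zero] at this
  have hB2 : (B : ℝ) ≤ 2 * x ^ (g + a0) := by
    have := Nat.ceil_lt_add_one (show 0 ≤ x ^ (g + a0) by positivity)
    rw [← hB] at this
    linarith
  have hB0 : 0 < B := by
    have : (0:ℝ) < B := by linarith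
    exact_mod_cast this
  have hBr : (0:ℝ) < B := by exact_mod_cast hB0
  set N : ℕ := n / B with hN
  have hBN : B * N ≤ n := Nat.mul_div_le n B
  have hN1 : x ^ (1 - g - a0) / 4 ≤ N := by
    have h1 : x / B - 1 ≤ N := by
      have h2 : x < B * (N + 1) := by
        rw [hx, hN]
        exact_mod_cast Nat.lt_mul_div_succ n hB0
      rw [sub_le_iff_le_add, div_le_iff₀ hBr]
      linarith
    have h2 : x ^ (1 - g - a0) / 2 ≤ x / B := by
      rw [div_le_div_iff₀ (by norm_num) hBr]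
      have h3 : x ^ (1 - g - a0) * x ^ (g + a0) = x := by
        rw [← Real.rpow_add hx0]
        have : 1 - g - a0 + (g + a0) = 1 := by ring
        rw [this, Real.rpow_one]
      have h4 := mul_le_mul_of_nonneg_left hB2 (show 0 ≤ x ^ (1 - g - a0) by positivity)
      linarith
    linarith
  have hN0 : 0 < N := by
    have : (0:ℝ) < N := by linarith
    exact_mod_cast this
  have hNr : (0:ℝ) < N := by exact_mod_cast hN0
  have : NeZero N := ⟨hN0.ne'⟩
  set D : ℕ := ⌈3 * (q:ℝ) ^ 2 * Real.log x⌉₊ with hD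
  have hD1 : 3 * (q:ℝ) ^ 2 * Real.log x ≤ D := Nat.le_ceil _
  have hD0 : 0 < D := by
    rw [hD, Nat.ceil_pos]
    positivity
  have hD2 : (D : ℝ) ≤ 3 * (q:ℝ) ^ 2 * Real.log x + 1 := by
    have := Nat.ceil_lt_add_one (show 0 ≤ 3 * (q:ℝ) ^ 2 * Real.log x by positivity)
    linarith
  set L : ℕ := Nat.clog 2 n with hL
  have hnL : n ≤ 2 ^ L := Nat.le_pow_clog (by norm_num) n
  have hL1 : (L : ℝ) ≤ 2 * Real.log x + 1 := by
    have h1 : 2 ^ (L - 1) < n := by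
      have := Nat.pow_pred_clog_lt_self (b := 2) (by norm_num) (show 1 < n by omega)
      exact this
    have hL0 : 1 ≤ L := by
      by_contra hcon
      have : L = 0 := by omega
      rw [this] at hnL
      omega
    have h2 : ((2:ℝ)) ^ (L - 1) < x := by
      rw [hx]
      exact_mod_cast h1
    have h3 := Real.log_lt_log (by positivity) h2
    rw [Real.log_pow, Nat.cast_sub hL0] at h3
    have h5 := Real.log_two_gt_d9
    have h6 : (0:ℝ) ≤ (L:ℝ) - ((1:ℕ):ℝ) := by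
      have : (1:ℝ) ≤ L := by exact_mod_cast hL0
      push_cast
      linarith
    push_cast at h3 h6
    nlinarith
  have hd' : D + 2 * L ≤ d := by
    have : (D : ℝ) + 2 * L ≤ d := by
      have e1 : (3 * (q:ℝ) ^ 2 + 8) * Real.log x ≤ d := hd
      nlinarith
    exact_mod_cast this
  set lam : ℝ := x ^ (-a0) with hlam
  have hlam0 : 0 < lam := by positivity
  set τ : ℝ := x ^ a0 with hτ
  have hτ0 : 0 < τ := by positivity
  set K : ℝ := x ^ (2 * a0) with hK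
  have hK' : τ / lam ≤ K := by
    rw [hτ, hlam, hK, ← Real.rpow_sub hx0]
    apply le_of_eq
    congr 1
    ring
  have hK1 : 1 ≤ K := by
    have := pow_mono (u := 0) (v := 2 * a0) (by positivity)
    rwa [Real.rpow_zero] at this
  obtain ⟨Λ, i1, i2, yes, no, h1, h2, h3⟩ := hard (t := t) (q := q) (D := D) (L := L) (N := N)
    (B := B) (n := n) (d := d) (by omega) hnL hd' hD0 hB0 hBN hlam0 hτ0 hK' hK1
  refine ⟨Λ, i1, i2, yes, no, h1, h2, fun s m l F hs hm hl hF => ?_⟩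
  refine (h3 s m l F hF).trans ?_
  refine add_le_add le_rfl ?_
  have hl0 : (0:ℝ) ≤ l := Nat.cast_nonneg _
  have ha0s : a0 ≤ 1 / 8 := by
    rw [ha0]
    linarith
  have hg1 : g ≤ 1 / 2 := by linarith
  -- the five terms
  have b1 : (l : ℝ) / B ≤ x ^ (-a0) := by
    rw [div_le_iff₀ hBr]
    have e1 : x ^ (-a0) * x ^ (g + a0) = x ^ g := by
      rw [← Real.rpow_add hx0]
      congr 1
      ring
    have e2 := mul_le_mul_of_nonneg_left hB1 (show 0 ≤ x ^ (-a0) by positivity)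
    linarith
  have hNinv : 1 / (N:ℝ) ≤ 4 * x ^ (-(1 - g - a0)) := by
    rw [Real.rpow_neg hx0.le, div_le_iff₀ hNr]
    have e1 : 0 < x ^ (1 - g - a0) := by positivity
    have e2 : 4 * (x ^ (1 - g - a0))⁻¹ * N = N / (x ^ (1 - g - a0) / 4) := by
      field_simp
    rw [e2, le_div_iff₀ (by positivity)]
    linarith
  have b2 : (l : ℝ) * (K / N) ≤ 4 * x ^ (-a0) := by
    have e1 : (l : ℝ) * (K / N) = l * K * (1 / N) := by ring
    rw [e1]
    calc (l : ℝ) * K * (1 / N) ≤ x ^ g * K * (4 * x ^ (-(1 - g - a0))) := by gcongr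
      _ = 4 * (x ^ g * x ^ (2 * a0) * x ^ (-(1 - g - a0))) := by rw [hK]; ring
      _ = 4 * x ^ (g + 2 * a0 + -(1 - g - a0)) := by
          rw [Real.rpow_add hx0, Real.rpow_add hx0]
      _ ≤ 4 * x ^ (-a0) := by
          have : g + 2 * a0 + -(1 - g - a0) ≤ -a0 := by
            rw [ha0]
            linarith
          have := pow_mono this
          linarith
  have b3 : (l : ℝ) * (s * K ^ 2 / (N:ℝ) ^ 2) ≤ 16 * x ^ (-a0) := by
    have e1 : (l : ℝ) * (s * K ^ 2 / (N:ℝ) ^ 2) = l * s * K ^ 2 * (1 / (N:ℝ)) ^ 2 := by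
      field_simp
    rw [e1]
    calc (l : ℝ) * s * K ^ 2 * (1 / (N:ℝ)) ^ 2 ≤
        x ^ g * x ^ (2 - 3 * g - ε) * K ^ 2 * (4 * x ^ (-(1 - g - a0))) ^ 2 := by gcongr
      _ = 16 * (x ^ g * x ^ (2 - 3 * g - ε) * (x ^ (2 * a0)) ^ 2 *
          (x ^ (-(1 - g - a0))) ^ 2) := by rw [hK]; ring
      _ = 16 * x ^ (g + (2 - 3 * g - ε) + (2 * a0 + 2 * a0) +
          (-(1 - g - a0) + -(1 - g - a0))) := by
          rw [hsq, hsq, ← Real.rpow_add hx0, ← Real.rpow_add hx0, ← Real.rpow_add hx0]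
      _ ≤ 16 * x ^ (-a0) := by
          have : g + (2 - 3 * g - ε) + (2 * a0 + 2 * a0) +
              (-(1 - g - a0) + -(1 - g - a0)) ≤ -a0 := by
            rw [ha0]
            linarith
          have := pow_mono this
          linarith
  have hlt : lam ^ t ≤ x ^ (-(T + 4)) := by
    rw [hlam, ← Real.rpow_natCast, ← Real.rpow_mul hx0.le]
    refine pow_mono ?_
    rw [div_le_iff₀ ha0'] at ht1
    linarith
  have b4 : (l : ℝ) * ((s + m) * (2 * lam ^ t + Real.exp (-τ))) ≤ 6 * x ^ (-a0) := by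
    have e1 : (2 * lam ^ t + Real.exp (-τ)) ≤ 3 * x ^ (-(T + 4)) := by
      have : Real.exp (-τ) ≤ x ^ (-(T + 4)) := hexp
      linarith
    have e2 : (s : ℝ) + m ≤ 2 * x ^ (T + 2) := by
      have := pow_mono (u := 2 - 3 * g - ε) (v := T + 2) (by linarith)
      have := pow_mono (u := T) (v := T + 2) (by linarith)
      linarith
    calc (l : ℝ) * ((s + m) * (2 * lam ^ t + Real.exp (-τ))) ≤
        x ^ g * ((2 * x ^ (T + 2)) * (3 * x ^ (-(T + 4)))) := by gcongr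
      _ = 6 * (x ^ g * x ^ (T + 2) * x ^ (-(T + 4))) := by ring
      _ = 6 * x ^ (g + (T + 2) + -(T + 4)) := by
          rw [← Real.rpow_add hx0, ← Real.rpow_add hx0]
      _ ≤ 6 * x ^ (-a0) := by
          have := pow_mono (u := g + (T + 2) + -(T + 4)) (v := -a0) (by linarith)
          linarith
  have b5 : ((B : ℝ) * N) ^ 2 * Real.exp (-(D / (q:ℝ) ^ 2)) ≤ x ^ (-a0) := by
    have e1 : (B : ℝ) * N ≤ x := by
      rw [hx]
      exact_mod_cast hBN
    have e2 : Real.exp (-(D / (q:ℝ) ^ 2)) ≤ x ^ (-(3:ℝ)) := by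
      rw [Real.rpow_def_of_pos hx0, Real.exp_le_exp]
      have : 3 * Real.log x ≤ D / (q:ℝ) ^ 2 := by
        rw [le_div_iff₀ (by positivity)]
        linarith
      linarith
    calc ((B : ℝ) * N) ^ 2 * Real.exp (-(D / (q:ℝ) ^ 2)) ≤ x ^ 2 * x ^ (-(3:ℝ)) := by gcongr
      _ = x ^ ((2:ℝ) + -3) := by
          rw [Real.rpow_add hx0, Real.rpow_two]
      _ ≤ x ^ (-a0) := pow_mono (by linarith)
  have b6 : x ^ (-a0) * 28 ≤ x ^ (-(a0 / 2)) := by
    have e1 : x ^ (-a0) * x ^ (a0 / 2) = x ^ (-(a0 / 2)) := by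
      rw [← Real.rpow_add hx0]
      congr 1
      ring
    have e2 := mul_le_mul_of_nonneg_left h28 (show 0 ≤ x ^ (-a0) by positivity)
    linarith
  have e : (l : ℝ) / B + l * (K / N + s * K ^ 2 / (N:ℝ) ^ 2 +
      (s + m) * (2 * lam ^ t + Real.exp (-τ))) + ((B : ℝ) * N) ^ 2 *
      Real.exp (-(D / (q:ℝ) ^ 2)) = l / B + l * (K / N) + l * (s * K ^ 2 / (N:ℝ) ^ 2) +
      l * ((s + m) * (2 * lam ^ t + Real.exp (-τ))) + ((B : ℝ) * N) ^ 2 *
      Real.exp (-(D / (q:ℝ) ^ 2)) := by ring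
  rw [e]
  linarith

end Pool.Agent.V8H43.OV
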